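import Pool.Agent.Lib.MP_ba489c_co.Conv

/-!
The core theorem: all pairs of disjoint paths have the same weight iff every odd circle is split by
a separation iff there is a chain of separations with balanced pieces.
-/

set_option autoImplicit false
set_option linter.unusedSectionVars false

namespace Pool.Agent.Lib.MP_ba489c_co

open Finset SimpleGraph

variable {V : Type*} [Fintype V] [DecidableEq V] {G : SimpleGraph V} {E F : Finset V}
  {w : V → V → ZMod 2}

variable (G E F) in
/-- `k` is split by a separation -/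
def Spl {u : V} (k : G.Walk u u) : Prop :=
  ∃ X Y : Finset V, Sp G E F X Y ∧ (∃ z ∈ k.support, z ∉ X) ∧ ∃ z ∈ k.support, z ∉ Y

variable (G E F w) in
/-- a chain of separations with balanced pieces -/
structure Chn (n : ℕ) (X Y : ℕ → Finset V) : Prop where
  pos : 0 < n
  X0 : X 0 = E
  Y0 : Y 0 = univ
  Xn : X n = univ
  Yn : Y n = F
  sp : ∀ i ≤ n, Sp G E F (X i) (Y i)
  mono : ∀ i < n, X i ⊆ X (i + 1) ∧ Y (i + 1) ⊆ Y i
  bal : ∀ i < n, ∀ (u : V) (k : G.Walk u u), k.IsCycle →
    (∀ z ∈ k.support, z ∈ X (i + 1) ∧ z ∈ Y i) → ww w k = 0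

/-- odd circles are split by some member of the chain -/
lemma Chn.split {n : ℕ} {X Y : ℕ → Finset V} (h : Chn G E F w n X Y) {u : V} (k : G.Walk u u)
    (hk : k.IsCycle) (hodd : ww w k ≠ 0) : Spl G E F k := by
  classical
  by_contra hns
  have hall : ∀ i ≤ n, (∀ z ∈ k.support, z ∈ X i) ∨ ∀ z ∈ k.support, z ∈ Y i := by
    intro i hi
    by_contra hc
    push Not at hc
    obtain ⟨⟨z, hz, hz'⟩, ⟨y, hy, hy'⟩⟩ := hc
    exact hns ⟨X i, Y i, h.sp i hi, ⟨z, hz, hz'⟩, ⟨y, hy, hy'⟩⟩
  have hex : ∃ i, i ≤ n ∧ ∀ z ∈ k.support, z ∈ X i :=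
    ⟨n, le_rfl, fun z _ => by rw [h.Xn]; exact mem_univ z⟩
  obtain ⟨h1, h2⟩ := Nat.find_spec hex
  rcases h3 : Nat.find hex with _ | i
  · rw [h3] at h2
    apply hodd
    apply h.bal 0 h.pos u k hk
    intro z hz
    refine ⟨(h.mono 0 h.pos).1 (h2 z hz), ?_⟩
    rw [h.Y0]
    exact mem_univ z
  · rw [h3] at h1 h2
    have h4 : ¬ (i ≤ n ∧ ∀ z ∈ k.support, z ∈ X i) := Nat.find_min hex (by omega)
    have h5 : ∀ z ∈ k.support, z ∈ Y i := by
      rcases hall i (by omega) with h6 | h6
      · exact absurd ⟨by omega, h6⟩ h4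
      · exact h6
    apply hodd
    exact h.bal i (by omega) u k hk fun z hz => ⟨h2 z hz, h5 z hz⟩

/-- If all odd circles are split then all allowed permutations have the same weight. -/
theorem weight_eq_of_split (hw : ∀ u v, w u v = w v u) (h0 : ∀ v, w v v = 0) (hE : E.card = 2)
    (hS : ∀ (u : V) (k : G.Walk u u), k.IsCycle → ww w k ≠ 0 → Spl G E F k)
    {τ τ' : Equiv.Perm V} (hτ : Al G E F τ) (hτ' : Al G E F τ') : Wt F w τ' = Wt F w τ := by
  set c : Equiv.Perm V := τ⁻¹ * τ' with hc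
  have hτc : ∀ u, τ (c u) = τ' u := by
    intro u
    rw [hc, Equiv.Perm.mul_apply, ap_inv]
  have hcF : ∀ u, c u ∈ F ↔ u ∈ F := by
    intro u
    rw [← hτ.mem, hτc, hτ'.mem]
  have hb : ∀ (σ : Equiv.Perm V), Al G E F σ → ∀ u ∉ F, u = σ u ∨ G.Adj u (σ u) := by
    intro σ hσ u hu
    rcases hσ u with h | h
    · exact absurd h.1 hu
    · exact h.2.2
  have h1 : Wt F w τ = ∑ u ∈ Fᶜ, w (c u) (τ' u) := by
    unfold Wt
    symm
    apply sum_nbij c
    · intro u hu
      rw [mem_compl] at hu ⊢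
      rwa [hcF]
    · exact c.injective.injOn
    · intro u hu
      rw [coe_compl, Set.mem_compl_iff, mem_coe] at hu
      refine ⟨c⁻¹ u, ?_, ap_inv c u⟩
      rw [coe_compl, Set.mem_compl_iff, mem_coe, ← hcF, ap_inv]
      exact hu
    · intro u _
      rw [hτc]
  have h2 : Wt F w τ' + Wt F w τ = 0 := by
    rw [h1]
    unfold Wt
    rw [← sum_add_distrib]
    apply sum_orbits c (fun u => w u (τ' u) + w (c u) (τ' u))
    · intro u hu
      rw [mem_compl] at hu ⊢
      rwa [hcF]
    · intro u hu n hn hnu _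
      rw [mem_compl] at hu
      have hcs : ∀ i, (c ^ (i + 1)) u = c ((c ^ i) u) := fun i => by
        rw [pow_succ', Equiv.Perm.mul_apply]
      have hiF : ∀ i, (c ^ i) u ∉ F := by
        intro i
        induction i with
        | zero => simpa using hu
        | succ i ih => rw [hcs, hcF]; exact ih
      by_contra hne
      set f : ℕ → V := fun j => if j % 2 = 0 then (c ^ (j / 2)) u else τ' ((c ^ (j / 2)) u) with hf
      have f0 : ∀ i, f (2 * i) = (c ^ i) u := by
        intro i
        simp only [hf]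
        rw [if_pos (by omega), show 2 * i / 2 = i by omega]
      have f1 : ∀ i, f (2 * i + 1) = τ' ((c ^ i) u) := by
        intro i
        simp only [hf]
        rw [if_neg (by omega), show (2 * i + 1) / 2 = i by omega]
      have hR : ∀ j < 2 * n, f j = f (j + 1) ∨ G.Adj (f j) (f (j + 1)) := by
        intro j _
        rcases Nat.even_or_odd' j with ⟨i, rfl | rfl⟩
        · rw [f0, f1]
          exact hb τ' hτ' _ (hiF i)
        · rw [f1, show 2 * i + 1 + 1 = 2 * (i + 1) by ring, f0, ← hτc, ← hcs]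
          rcases hb τ hτ _ (hiF (i + 1)) with h | h
          · exact Or.inl h.symm
          · exact Or.inr h.symm
      have hfc : f (2 * n) = f 0 := by
        have := f0 0
        rw [mul_zero] at this
        rw [f0, this, hnu, pow_zero, Equiv.Perm.one_apply]
      have hsum : ∀ n, ∑ j ∈ range (2 * n), w (f j) (f (j + 1)) =
          ∑ i ∈ range n, (w ((c ^ i) u) (τ' ((c ^ i) u)) + w (c ((c ^ i) u)) (τ' ((c ^ i) u))) := by
        intro n
        induction n with
        | zero => simp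
        | succ n ih =>
          rw [show 2 * (n + 1) = 2 * n + 1 + 1 by ring, sum_range_succ, sum_range_succ, ih,
            sum_range_succ, f0, f1, show 2 * n + 1 + 1 = 2 * (n + 1) by ring, f0, hcs,
            hw (τ' ((c ^ n) u))]
          ring
      rw [← hsum] at hne
      obtain ⟨m, g, hm, hg, hgc, hgs, hgi, hgm⟩ := exists_simple
        (fun x y => x = y ∨ G.Adj x y) w (2 * n) f hR hfc hne
      have hm3 : 3 ≤ m := by
        by_contra hlt
        have : m = 1 ∨ m = 2 := by omega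
        rcases this with rfl | rfl
        · rw [sum_range_one, zero_add, hgc, h0] at hgs
          exact hgs rfl
        · rw [sum_range_succ, sum_range_one, zero_add, show 1 + 1 = 2 from rfl, hgc,
            hw (g 1) (g 0)] at hgs
          exact hgs (two_eq _)
      have hadj : ∀ i < m, G.Adj (g i) (g (i + 1)) := by
        intro i hi
        rcases hg i hi with h | h
        · exfalso
          rcases Nat.lt_or_ge (i + 1) m with h3 | h3
          · have := hgi i hi (i + 1) h3 h
            omega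
          · have h4 : i + 1 = m := by omega
            rw [h4, hgc] at h
            have := hgi i hi 0 (by omega) h
            omega
        · exact h
      obtain ⟨k, k1, k2, k3⟩ := exists_cycle_of_fun (w := w) m hm3 g hadj hgc hgi
      rw [← k3] at hgs
      obtain ⟨X, Y, hXY, ⟨x, hx, hxX⟩, ⟨y, hy, hyY⟩⟩ := hS _ k k1 hgs
      have hmemk : ∀ z ∈ k.support, (∃ i, z = (c ^ i) u) ∨ ∃ i, z = τ' ((c ^ i) u) := by
        intro z hz
        obtain ⟨i, hi, rfl⟩ := (k2 z).1 hz
        obtain ⟨j, _, hj⟩ := hgm i hi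
        rw [hj]
        rcases Nat.even_or_odd' j with ⟨l, rfl | rfl⟩
        · exact Or.inl ⟨l, f0 l⟩
        · exact Or.inr ⟨l, f1 l⟩
      have huniv : ∀ z, z ∈ X ∨ z ∈ Y := by
        intro z
        have : z ∈ X ∪ Y := by rw [hXY.union]; exact mem_univ z
        exact mem_union.1 this
      have hnb : ∀ (σ : Equiv.Perm V), Al G E F σ → ∀ v ∉ F, v ∉ Y → σ v ∈ X := by
        intro σ hσ v hvF hvY
        have hvX : v ∈ X := (huniv v).resolve_right hvY
        rcases hb σ hσ v hvF with h | h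
        · rw [← h]; exact hvX
        · by_contra h3
          exact hXY.far v hvX hvY _ ((huniv _).resolve_left h3) h3 h
      by_cases hcase : ∀ i, (c ^ i) u ∈ Y
      · -- everything is in `Y`
        apply hyY
        rcases hmemk y hy with ⟨i, rfl⟩ | ⟨i, rfl⟩
        · exact hcase i
        · rw [← hτc, ← hcs]
          rcases huniv (τ ((c ^ (i + 1)) u)) with h | h
          · exact absurd (hXY.back hτ hE h (hcase (i + 1))) (hiF _)
          · exact h
      · push Not at hcase
        obtain ⟨i0, hi0⟩ := hcase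
        have hnext : ∀ i, (c ^ i) u ∉ Y → (c ^ (i + 1)) u ∉ Y := by
          intro i hi hY
          have h3 : τ ((c ^ (i + 1)) u) ∈ X := by
            rw [hcs, hτc]
            exact hnb τ' hτ' _ (hiF i) hi
          exact hiF _ (hXY.back hτ hE h3 hY)
        have hge : ∀ j, (c ^ (i0 + j)) u ∉ Y := by
          intro j
          induction j with
          | zero => exact hi0
          | succ j ih => exact hnext _ ih
        have hall : ∀ i, (c ^ i) u ∉ Y := by
          intro i
          have h3 : (c ^ (n * i0 + i)) u = (c ^ i) u := by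
            rw [add_comm, pow_add, Equiv.Perm.mul_apply]
            congr 1
            rw [pow_mul]
            have : ∀ j, ((c ^ n) ^ j) u = u := by
              intro j
              induction j with
              | zero => simp
              | succ j ih => rw [pow_succ, Equiv.Perm.mul_apply, hnu, ih]
            exact this i0
          rw [← h3]
          obtain ⟨d, hd⟩ : ∃ d, n * i0 + i = i0 + d := by
            have : i0 ≤ n * i0 := Nat.le_mul_of_pos_left _ hn
            exact ⟨n * i0 + i - i0, by omega⟩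
          rw [hd]
          exact hge d
        apply hxX
        rcases hmemk x hx with ⟨i, rfl⟩ | ⟨i, rfl⟩
        · exact (huniv _).resolve_right (hall i)
        · exact hnb τ' hτ' _ (hiF i) (hall i)
  have h3 := two_eq (Wt F w τ)
  linear_combination h2 - h3

/-- vertices of a path except the last one are not in `F` -/
lemma Lk.notF {a b c d : V} {p : G.Walk a c} {q : G.Walk b d} (hL : Lk E F p q) {i : ℕ}
    (hi : i < p.length) : p.getVert i ∉ F := by
  rw [hL.hF, mem_insert, mem_singleton]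
  rintro (h | h)
  · have := path_inj hL.pp hi.le le_rfl (by rw [Walk.getVert_length]; exact h)
    omega
  · exact hL.dis _ (p.getVert_mem_support i) (by rw [h]; exact Walk.end_mem_support _)

section Reach

variable {τ τ' : Equiv.Perm V}

/-- iterating `τ⁻¹ τ'` gives walks in the residual digraph -/
lemma reach_pow (hτ : Al G E F τ) (hτ' : Al G E F τ') {u : V} (hu : u ∉ F) (n : ℕ) :
    (∃ a, WR G E F w τ u (((τ⁻¹ * τ') ^ n) u) a) ∧ ((τ⁻¹ * τ') ^ n) u ∉ F := by
  induction n with
  | zero => exact ⟨⟨0, WR.refl⟩, by simpa using hu⟩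
  | succ n ih =>
    obtain ⟨⟨a, ha⟩, hF⟩ := ih
    set v := ((τ⁻¹ * τ') ^ n) u with hv
    have h1 : ((τ⁻¹ * τ') ^ (n + 1)) u = τ⁻¹ (τ' v) := by
      rw [pow_succ', Equiv.Perm.mul_apply, ← hv, Equiv.Perm.mul_apply]
    have h2 : τ⁻¹ (τ' v) ∉ F := by
      rw [← hτ.mem, ap_inv, hτ'.mem]
      exact hF
    rw [h1]
    exact ⟨⟨_, ha.tail ⟨hF, h2, by rw [ap_inv]; exact hτ' v⟩⟩, h2⟩

/-- an edge used by an allowed permutation joins mutually reachable vertices -/
lemma SC.of_step (hτ : Al G E F τ) (hτ' : Al G E F τ') {u : V} (hu : u ∉ F) :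
    SC G E F w τ u (τ⁻¹ (τ' u)) := by
  refine ⟨?_, ?_⟩
  · have := (reach_pow (w := w) hτ hτ' hu 1).1
    rwa [pow_one, Equiv.Perm.mul_apply] at this
  · have h1 : τ⁻¹ (τ' u) ∉ F := by
      rw [← hτ.mem, ap_inv, hτ'.mem]
      exact hu
    have h2 := (reach_pow (w := w) hτ hτ' h1 (orderOf (τ⁻¹ * τ') - 1)).1
    have h3 : ((τ⁻¹ * τ') ^ (orderOf (τ⁻¹ * τ') - 1)) (τ⁻¹ (τ' u)) = u := by
      have h4 : τ⁻¹ (τ' u) = (τ⁻¹ * τ') u := by rw [Equiv.Perm.mul_apply]
      rw [h4, ← Equiv.Perm.mul_apply, ← pow_succ,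
        Nat.sub_add_cancel (orderOf_pos (τ⁻¹ * τ')), pow_orderOf_eq_one, Equiv.Perm.one_apply]
    rwa [h3] at h2

variable (G E F) in
/-- closed sets of the residual digraph -/
def Cl (τ : Equiv.Perm V) (K : Finset V) : Prop :=
  (∀ u ∈ K, u ∉ F) ∧ ∀ u ∈ K, ∀ v, Ra G E F τ u v → v ∈ K

lemma Cl.reach {K : Finset V} (hK : Cl G E F τ K) {u v : V} {a : ZMod 2} (hu : u ∈ K)
    (h : WR G E F w τ u v a) : v ∈ K := by
  induction h with
  | refl => exact hu
  | tail _ hR ih => exact hK.2 _ ih _ hR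

lemma Cl.compl (τ : Equiv.Perm V) : Cl G E F τ Fᶜ :=
  ⟨fun u hu => by rwa [mem_compl] at hu, fun u _ v hR => by rw [mem_compl]; exact hR.2.1⟩

/-- next closed set -/
lemma Cl.next {K : Finset V} (hK : Cl G E F τ K) (hne : K ≠ Fᶜ) :
    ∃ K', Cl G E F τ K' ∧ K ⊂ K' ∧
      ∀ u ∈ K', u ∉ K → ∀ v ∈ K', v ∉ K → ∃ a, WR G E F w τ u v a := by
  classical
  have hsub : K ⊆ Fᶜ := fun u hu => by rw [mem_compl]; exact hK.1 u hu
  have hnonempty : (univ.filter fun K' : Finset V => Cl G E F τ K' ∧ K ⊂ K').Nonempty :=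
    ⟨Fᶜ, by
      rw [mem_filter]
      exact ⟨mem_univ _, Cl.compl τ, hsub.ssubset_of_ne hne⟩⟩
  obtain ⟨K', hK', hmin⟩ := exists_min_image _ card hnonempty
  rw [mem_filter] at hK'
  obtain ⟨-, hK'1, hK'2⟩ := hK'
  refine ⟨K', hK'1, hK'2, ?_⟩
  intro u hu huK v hv hvK
  by_contra hcon
  set T := K ∪ univ.filter (fun x => ∃ a, WR G E F w τ u x a) with hT
  have huF := hK'1.1 u hu
  have hTc : Cl G E F τ T := by
    constructor
    · intro x hx
      rcases mem_union.1 hx with h | h
      · exact hK.1 x h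
      · obtain ⟨-, a, ha⟩ := mem_filter.1 h
        exact ha.notMem huF
    · intro x hx y hR
      rcases mem_union.1 hx with h | h
      · exact mem_union_left _ (hK.2 x h y hR)
      · obtain ⟨-, a, ha⟩ := mem_filter.1 h
        exact mem_union_right _ (mem_filter.2 ⟨mem_univ _, _, ha.tail hR⟩)
  have hTu : u ∈ T := mem_union_right _ (mem_filter.2 ⟨mem_univ _, 0, WR.refl⟩)
  have hTK : K ⊂ T := by
    refine ⟨subset_union_left, fun h => huK (h hTu)⟩
  have hTK' : T ⊆ K' := by
    intro x hx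
    rcases mem_union.1 hx with h | h
    · exact hK'2.1 h
    · obtain ⟨-, a, ha⟩ := mem_filter.1 h
      exact hK'1.reach hu ha
  have hle := hmin T (mem_filter.2 ⟨mem_univ _, hTc, hTK⟩)
  have heq : T = K' := eq_of_subset_of_card_le hTK' hle
  rw [← heq, hT, mem_union] at hv
  rcases hv with h | h
  · exact hvK h
  · exact hcon (mem_filter.1 h).2

/-- chains of closed sets -/
lemma Cl.chain (w : V → V → ZMod 2) : ∀ (m : ℕ) (K : Finset V), Cl G E F τ K →
    (Fᶜ \ K).card ≤ m →
    ∃ (n : ℕ) (L : ℕ → Finset V), L 0 = K ∧ L n = Fᶜ ∧ (∀ i ≤ n, Cl G E F τ (L i)) ∧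
      ∀ i < n, L i ⊆ L (i + 1) ∧ ∀ u ∈ L (i + 1), u ∉ L i → ∀ v ∈ L (i + 1), v ∉ L i →
        ∃ a, WR G E F w τ u v a := by
  intro m
  induction m with
  | zero =>
    intro K hK hcard
    have h1 : Fᶜ \ K = ∅ := card_eq_zero.1 (by omega)
    have h2 : K = Fᶜ := by
      apply Subset.antisymm
      · intro u hu
        rw [mem_compl]
        exact hK.1 u hu
      · exact sdiff_eq_empty_iff_subset.1 h1
    exact ⟨0, fun _ => K, rfl, h2, fun _ _ => hK, fun i hi => by omega⟩
  | succ m ih =>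
    intro K hK hcard
    by_cases hne : K = Fᶜ
    · exact ⟨0, fun _ => K, rfl, hne, fun _ _ => hK, fun i hi => by omega⟩
    · obtain ⟨K', h1, h2, h3⟩ := hK.next (w := w) hne
      have hlt : (Fᶜ \ K').card < (Fᶜ \ K).card := by
        apply card_lt_card
        refine ⟨sdiff_subset_sdiff (Subset.refl _) h2.1, fun h => h2.2 fun x hx => ?_⟩
        by_contra hxK
        have h4 : x ∈ Fᶜ \ K := mem_sdiff.2 ⟨by rw [mem_compl]; exact h1.1 x hx, hxK⟩
        exact (mem_sdiff.1 (h h4)).2 hx
      obtain ⟨n, L, hL0, hLn, hLc, hLs⟩ := ih K' h1 (by omega)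
      refine ⟨n + 1, fun i => if i = 0 then K else L (i - 1), by simp, by simp [hLn], ?_, ?_⟩
      · intro i hi
        dsimp only
        split_ifs with h4
        · exact hK
        · exact hLc _ (by omega)
      · intro i hi
        rcases i with _ | i
        · simp only [if_true]
          rw [if_neg (by omega), show 0 + 1 - 1 = 0 by omega, hL0]
          exact ⟨h2.1, h3⟩
        · dsimp only
          rw [if_neg (by omega), if_neg (by omega), show i + 1 - 1 = i by omega,
            show i + 1 + 1 - 1 = i + 1 by omega]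
          exact hLs i (by omega)

end Reach

/-- a potential makes closed walks even -/
lemma ww_eq_of_potential {χ : V → ZMod 2} {x y : V} (p : G.Walk x y)
    (h : ∀ d ∈ p.darts, w d.fst d.snd = χ d.fst + χ d.snd) : ww w p = χ x + χ y := by
  induction p with
  | nil => rw [ww_nil, two_eq]
  | @cons u v x hadj p ih =>
    rw [ww_cons, ih (fun d hd => h d (by rw [Walk.darts_cons]; exact List.mem_cons_of_mem _ hd))]
    have := h ⟨(u, v), hadj⟩ (by rw [Walk.darts_cons]; exact List.mem_cons_self)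
    rw [this]
    linear_combination two_eq (χ v)

/-- If all pairs of paths have the same weight there is a chain of separations with balanced
pieces. -/
theorem exists_chain (hw : ∀ u v, w u v = w v u) (h0 : ∀ v, w v v = 0) {s : ZMod 2}
    (hU : Uni G w E F s) (hH : ∀ u v, G.Adj u v → ∃ (a b c d : V) (p : G.Walk a c)
      (q : G.Walk b d), Lk E F p q ∧ ∃ i < p.length, s(u, v) = s(p.getVert i, p.getVert (i + 1)))
    (hE : E.card = 2) (hF : F.card = 2) (hV : 2 < Fintype.card V)
    (hex : ∃ (a b c d : V) (p : G.Walk a c) (q : G.Walk b d), Lk E F p q) :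
    ∃ (n : ℕ) (X Y : ℕ → Finset V), Chn G E F w n X Y := by
  obtain ⟨a₀, b₀, c₀, d₀, p₀, q₀, hL₀⟩ := hex
  obtain ⟨τ, hτ, -, -, -⟩ := hL₀.toPerm h0
  have hH' : ∀ u v, G.Adj u v → ∃ (a b c d : V) (p : G.Walk a c)
      (q : G.Walk b d), Lk E F p q ∧ u ∈ p.support ∧ v ∈ p.support := by
    intro u v huv
    obtain ⟨a, b, c, d, p, q, hL, i, hi, he⟩ := hH u v huv
    refine ⟨a, b, c, d, p, q, hL, ?_⟩
    rw [Sym2.eq_iff] at he
    rcases he with ⟨rfl, rfl⟩ | ⟨rfl, rfl⟩
    · exact ⟨p.getVert_mem_support _, p.getVert_mem_support _⟩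
    · exact ⟨p.getVert_mem_support _, p.getVert_mem_support _⟩
  have hWall : ∀ τ', Al G E F τ' → Wt F w τ' = s := fun τ' hτ' =>
    hτ'.weight hw h0 hU hH' hE hF
  have hW : ∀ τ', Al G E F τ' → Wt F w τ' = Wt F w τ := fun τ' hτ' => by
    rw [hWall τ' hτ', hWall τ hτ]
  obtain ⟨n, L, hL0, hLn, hLc, hLs⟩ := Cl.chain (G := G) (E := E) (τ := τ) w _ ∅
    ⟨fun u hu => absurd hu (notMem_empty u), fun u hu => absurd hu (notMem_empty u)⟩ le_rfl
  have hn : 0 < n := by
    rcases Nat.eq_zero_or_pos n with h | h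
    · exfalso
      rw [h, hL0] at hLn
      have h1 : F.card + Fᶜ.card = Fintype.card V := card_add_card_compl F
      rw [← hLn, card_empty] at h1
      omega
    · exact h
  refine ⟨n, fun i => (L i).image τ ∪ E, fun i => (L i)ᶜ, ?_⟩
  have hXn : (L n).image τ ∪ E = univ := by
    rw [hLn, eq_univ_iff_forall]
    intro x
    rw [mem_union]
    by_cases hx : x ∈ E
    · exact Or.inr hx
    · left
      rw [mem_image]
      refine ⟨τ⁻¹ x, ?_, ap_inv τ x⟩
      rw [mem_compl, ← hτ.mem, ap_inv]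
      exact hx
  refine ⟨hn, ?_, ?_, hXn, ?_, ?_, ?_, ?_⟩
  · rw [hL0, image_empty, empty_union]
  · rw [hL0, compl_empty]
  · rw [hLn, compl_compl]
  · intro i hi
    exact Sp.of_closed hτ hE (hLc i hi).1 (hLc i hi).2
  · intro i hi
    refine ⟨union_subset_union (image_subset_image (hLs i hi).1) (Subset.refl _), ?_⟩
    exact compl_subset_compl.2 (hLs i hi).1
  · intro i hi u k hk hz
    -- the edges of `k`
    have hedge : ∀ d ∈ k.darts, ∃ x y : V, s(d.fst, d.snd) = s(x, y) ∧ x ∉ F ∧ y ∉ E ∧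
        G.Adj x y ∧ (x ∈ L (i + 1) ∧ x ∉ L i) ∧ (τ⁻¹ y ∈ L (i + 1) ∧ τ⁻¹ y ∉ L i) := by
      intro d hd
      obtain ⟨a, b, c, e, p, q, hL, j, hj, he⟩ := hH _ _ d.adj
      obtain ⟨τ', hτ', -, hp, -⟩ := hL.toPerm h0
      have hxF := hL.notF hj
      have hyE : p.getVert (j + 1) ∉ E := by
        rw [← hp j hj, hτ'.mem]
        exact hxF
      have hsc : SC G E F w τ (p.getVert j) (τ⁻¹ (p.getVert (j + 1))) := by
        rw [← hp j hj]
        exact SC.of_step hτ hτ' hxF
      have hmem : ∀ z, z = p.getVert j ∨ z = p.getVert (j + 1) →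
          z ∈ (L (i + 1)).image τ ∪ E ∧ z ∈ (L i)ᶜ := by
        intro z hz'
        apply hz
        have h1 : d.fst ∈ k.support := k.dart_fst_mem_support_of_mem_darts hd
        have h2 : d.snd ∈ k.support := k.dart_snd_mem_support_of_mem_darts hd
        rw [Sym2.eq_iff] at he
        rcases hz' with rfl | rfl <;> rcases he with ⟨e1, e2⟩ | ⟨e1, e2⟩
        · rw [← e1]; exact h1
        · rw [← e2]; exact h2
        · rw [← e2]; exact h2
        · rw [← e1]; exact h1
      have hx := hmem _ (Or.inl rfl)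
      have hy := hmem _ (Or.inr rfl)
      have hx2 : p.getVert j ∉ L i := by
        have := hx.2
        rwa [mem_compl] at this
      have hy1 : τ⁻¹ (p.getVert (j + 1)) ∈ L (i + 1) := by
        rcases mem_union.1 hy.1 with h | h
        · obtain ⟨x, hx, hxe⟩ := mem_image.1 h
          rw [← hxe, inv_ap]
          exact hx
        · exact absurd h hyE
      have hx1 : p.getVert j ∈ L (i + 1) := by
        obtain ⟨a, ha⟩ := hsc.2
        exact (hLc (i + 1) (by omega)).reach hy1 ha
      have hy2 : τ⁻¹ (p.getVert (j + 1)) ∉ L i := by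
        intro h
        obtain ⟨a, ha⟩ := hsc.2
        exact hx2 ((hLc i (by omega)).reach h ha)
      exact ⟨_, _, he, hxF, hyE, p.adj_getVert_succ hj, ⟨hx1, hx2⟩, ⟨hy1, hy2⟩⟩
    -- a root
    have hne : ∃ d, d ∈ k.darts := by
      cases k with
      | nil => exact absurd hk Walk.not_isCycle_nil
      | cons h p => exact ⟨_, by rw [Walk.darts_cons]; exact List.mem_cons_self⟩
    obtain ⟨d₁, hd₁⟩ := hne
    obtain ⟨r, y₁, -, hrF, -, -, hr, -⟩ := hedge d₁ hd₁
    obtain ⟨χ, hχ⟩ := exists_potential hτ hW h0 hrF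
    have hSC : ∀ x, x ∈ L (i + 1) → x ∉ L i → SC G E F w τ r x := by
      intro x hx hx'
      exact ⟨(hLs i hi).2 r hr.1 hr.2 x hx hx', (hLs i hi).2 x hx hx' r hr.1 hr.2⟩
    have h1 : ww w k = χ u + χ u := by
      apply ww_eq_of_potential
      intro d hd
      obtain ⟨x, y, he, hxF, hyE, hxy, hx, hy⟩ := hedge d hd
      have h2 := hχ x y hxF hyE hxy (hSC x hx.1 hx.2) (hSC _ hy.1 hy.2)
      rw [Sym2.eq_iff] at he
      rcases he with ⟨e1, e2⟩ | ⟨e1, e2⟩
      · rw [e1, e2]
        exact h2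
      · rw [e1, e2, hw y x, h2, add_comm]
    rw [h1, two_eq]

/-- Converse. -/
theorem uni_of_split (hw : ∀ u v, w u v = w v u) (h0 : ∀ v, w v v = 0) (hE : E.card = 2)
    (hS : ∀ (u : V) (k : G.Walk u u), k.IsCycle → ww w k ≠ 0 → Spl G E F k)
    {a b c d a' b' c' d' : V} {p : G.Walk a c} {q : G.Walk b d} {p' : G.Walk a' c'}
    {q' : G.Walk b' d'} (hL : Lk E F p q) (hL' : Lk E F p' q') :
    ww w p + ww w q = ww w p' + ww w q' := by
  obtain ⟨τ, hτ, h1, -, -⟩ := hL.toPerm h0
  obtain ⟨τ', hτ', h2, -, -⟩ := hL'.toPerm h0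
  rw [← h1, ← h2]
  exact weight_eq_of_split hw h0 hE hS hτ' hτ

end Pool.Agent.Lib.MP_ba489c_co
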