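import Pool.Agent.Lib.MP_ba489c_co.Defs
import Pool.Agent.Lib.MP_ba489c_co.Core

/-!
Circles through two edges and pairs of disjoint paths.
-/

set_option autoImplicit false
set_option linter.unusedSectionVars false

namespace Pool.Agent.Lib.MP_ba489c_co

open Finset SimpleGraph

section Eps

/-- the sign as an element of `ZMod 2` -/
def eps (x : ℤˣ) : ZMod 2 := if x = 1 then 0 else 1

lemma eps_one : eps 1 = 0 := rfl

lemma eps_neg_one : eps (-1) = 1 := by decide

lemma eps_mul (x y : ℤˣ) : eps (x * y) = eps x + eps y := by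
  rcases Int.units_eq_one_or x with rfl | rfl <;> rcases Int.units_eq_one_or y with rfl | rfl <;>
    decide

lemma eps_eq_zero {x : ℤˣ} : eps x = 0 ↔ x = 1 := by
  rcases Int.units_eq_one_or x with rfl | rfl <;> decide

lemma eps_inj {x y : ℤˣ} : eps x = eps y ↔ x = y := by
  rcases Int.units_eq_one_or x with rfl | rfl <;> rcases Int.units_eq_one_or y with rfl | rfl <;>
    decide

variable {V : Type*} [DecidableEq V]

/-- the weight of a pair of vertices -/
def ws (σ : Sym2 V → ℤˣ) (u v : V) : ZMod 2 := if u = v then 0 else eps (σ s(u, v))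

lemma ws_symm (σ : Sym2 V → ℤˣ) (u v : V) : ws σ u v = ws σ v u := by
  unfold ws
  by_cases h : u = v
  · rw [if_pos h, if_pos h.symm]
  · rw [if_neg h, if_neg (Ne.symm h), Sym2.eq_swap]

lemma ws_self (σ : Sym2 V → ℤˣ) (v : V) : ws σ v v = 0 := by
  unfold ws
  rw [if_pos rfl]

lemma ws_adj (σ : Sym2 V → ℤˣ) {G : SimpleGraph V} {u v : V} (h : G.Adj u v) :
    ws σ u v = eps (σ s(u, v)) := by
  unfold ws
  rw [if_neg h.ne]

lemma ww_ws (σ : Sym2 V → ℤˣ) {G : SimpleGraph V} {u v : V} (p : G.Walk u v) :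
    ww (ws σ) p = eps (sgn σ p) := by
  induction p with
  | nil => rfl
  | cons h p ih =>
    rw [ww_cons, ih, ws_adj σ h]
    unfold sgn
    rw [Walk.edges_cons, List.map_cons, List.prod_cons, eps_mul]

lemma sgn_eq_of_perm (σ : Sym2 V → ℤˣ) {G : SimpleGraph V} {u v : V} {p : G.Walk u v}
    {l : List (Sym2 V)} (h : p.edges.Perm l) : sgn σ p = (l.map σ).prod := by
  unfold sgn
  exact (h.map σ).prod_eq

end Eps

variable {V : Type*} {G : SimpleGraph V}

/-- splitting a walk at a dart -/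
lemma split_dart {u v : V} (p : G.Walk u v) {d : G.Dart} (hd : d ∈ p.darts) :
    ∃ (p1 : G.Walk u d.fst) (p2 : G.Walk d.snd v), p = p1.append (Walk.cons d.adj p2) := by
  induction p with
  | nil => simp at hd
  | cons h p ih =>
    rw [Walk.darts_cons, List.mem_cons] at hd
    rcases hd with rfl | hd
    · exact ⟨Walk.nil, p, rfl⟩
    · obtain ⟨p1, p2, rfl⟩ := ih hd
      exact ⟨Walk.cons h p1, p2, rfl⟩

lemma split_edge {u v : V} (p : G.Walk u v) {e : Sym2 V} (he : e ∈ p.edges) :
    ∃ (x y : V) (h : G.Adj x y) (p1 : G.Walk u x) (p2 : G.Walk y v),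
      e = s(x, y) ∧ p = p1.append (Walk.cons h p2) := by
  unfold Walk.edges at he
  obtain ⟨d, hd, rfl⟩ := List.mem_map.1 he
  obtain ⟨p1, p2, h⟩ := split_dart p hd
  exact ⟨d.fst, d.snd, d.adj, p1, p2, rfl, h⟩

lemma cyc_rot {u v : V} {p : G.Walk u v} {q : G.Walk v u} (h : (p.append q).IsCycle) :
    (q.append p).IsCycle := by
  rw [Walk.isCycle_def, Walk.isTrail_def] at h ⊢
  refine ⟨?_, ?_, ?_⟩
  · have h1 := h.1
    rw [Walk.edges_append] at h1 ⊢
    exact List.perm_append_comm.nodup_iff.1 h1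
  · intro h1
    apply h.2.1
    have h2 : (q.append p).length = 0 := by rw [h1]; rfl
    rw [Walk.length_append] at h2
    have h3 : (p.append q).length = 0 := by
      rw [Walk.length_append]
      omega
    exact (Walk.length_eq_zero_iff.1 h3).eq_nil
  · have h1 := h.2.2
    rw [Walk.tail_support_append] at h1 ⊢
    exact List.perm_append_comm.nodup_iff.1 h1

/-- opening a circle at an edge -/
lemma path_of_cycle {v : V} {c : G.Walk v v} (hc : c.IsCycle) {e : Sym2 V} (he : e ∈ c.edges) :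
    ∃ (x y : V) (_ : G.Adj x y) (P : G.Walk y x), e = s(x, y) ∧ P.IsPath ∧ e ∉ P.edges ∧
      c.edges.Perm (e :: P.edges) := by
  obtain ⟨x, y, h, p1, p2, rfl, rfl⟩ := split_edge c he
  have h1 := cyc_rot hc
  rw [Walk.cons_append, Walk.cons_isCycle_iff] at h1
  refine ⟨x, y, h, p2.append p1, rfl, h1.1, h1.2, ?_⟩
  rw [Walk.edges_append, Walk.edges_cons, Walk.edges_append]
  have : (p1.edges ++ s(x, y) :: p2.edges).Perm ((s(x, y) :: p2.edges) ++ p1.edges) :=
    List.perm_append_comm
  rw [List.cons_append] at this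
  exact this

variable [DecidableEq V]

lemma toFinset_mk (x y : V) : (s(x, y) : Sym2 V).toFinset = {x, y} := by
  ext z
  rw [Sym2.mem_toFinset, Sym2.mem_iff, mem_insert, mem_singleton]

lemma edge_card {e : Sym2 V} (he : e ∈ G.edgeSet) : e.toFinset.card = 2 := by
  induction e with
  | h x y =>
    rw [toFinset_mk]
    exact card_pair (G.ne_of_adj he)

/-- from a circle through `e` and `f` to a pair of disjoint paths -/
theorem lk_of_circle {v : V} {c : G.Walk v v} (hc : c.IsCycle) {e f : Sym2 V} (he : e ∈ c.edges)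
    (hf : f ∈ c.edges) (hef : e ≠ f) : ∃ (a b c' d : V) (p : G.Walk a c') (q : G.Walk b d),
      Lk e.toFinset f.toFinset p q ∧ c.edges.Perm (e :: f :: (p.edges ++ q.edges)) := by
  obtain ⟨x, y, hxy, P, rfl, hP, heP, hperm⟩ := path_of_cycle hc he
  have hf' : f ∈ P.edges := by
    have := (hperm.mem_iff).1 hf
    rcases List.mem_cons.1 this with h | h
    · exact absurd h.symm hef
    · exact h
  obtain ⟨z, t, hzt, p, q, rfl, rfl⟩ := split_edge P hf'
  have hq : q.IsPath := by
    have h1 := path_right hP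
    rw [Walk.cons_isPath_iff] at h1
    exact h1.1
  refine ⟨y, x, z, t, p, q.reverse, ⟨path_left hP, hq.reverse, ?_, ?_, ?_⟩, ?_⟩
  · intro u hu hu'
    rw [Walk.support_reverse, List.mem_reverse] at hu'
    have h1 := eq_of_append hP hu (by
      rw [Walk.support_cons]
      exact List.mem_cons_of_mem _ hu')
    have h2 := path_right hP
    rw [Walk.cons_isPath_iff] at h2
    rw [h1] at hu'
    exact h2.2 hu'
  · rw [toFinset_mk, pair_comm]
  · rw [toFinset_mk]
  · refine hperm.trans (List.Perm.cons _ ?_)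
    rw [Walk.edges_append, Walk.edges_cons, Walk.edges_reverse]
    have h1 : (p.edges ++ s(z, t) :: q.edges).Perm (s(z, t) :: (p.edges ++ q.edges)) :=
      List.perm_middle
    refine h1.trans (List.Perm.cons _ ?_)
    exact (List.Perm.refl _).append (List.reverse_perm _).symm

/-- a path with only one vertex in a set does not contain an edge inside the set -/
lemma not_mem_edges_of {a c : V} {p : G.Walk a c} {e : Sym2 V}
    (h : ∀ x y, x ∈ p.support → y ∈ p.support → x ∈ e → y ∈ e → x = y) : e ∉ p.edges := by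
  intro he
  induction e with
  | h x y =>
    have h1 := p.fst_mem_support_of_mem_edges he
    have h2 := p.snd_mem_support_of_mem_edges he
    have h3 := h x y h1 h2 (Sym2.mem_mk_left _ _) (Sym2.mem_mk_right _ _)
    have h4 := p.adj_of_mem_edges he
    exact h4.ne h3

variable {e f : Sym2 V} {a b c d : V} {p : G.Walk a c} {q : G.Walk b d}

lemma Lk.e_eq {F : Finset V} (hL : Lk e.toFinset F p q) : e = s(a, b) := by
  have h1 : a ∈ e := by rw [← Sym2.mem_toFinset, hL.hE]; simp
  have h2 : b ∈ e := by rw [← Sym2.mem_toFinset, hL.hE]; simp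
  have hab : a ≠ b := by
    rintro rfl
    exact hL.dis a (Walk.start_mem_support _) (Walk.start_mem_support _)
  exact ((Sym2.mem_and_mem_iff hab).1 ⟨h1, h2⟩)

lemma Lk.f_eq {E : Finset V} (hL : Lk E f.toFinset p q) : f = s(c, d) := by
  have h1 : c ∈ f := by rw [← Sym2.mem_toFinset, hL.hF]; simp
  have h2 : d ∈ f := by rw [← Sym2.mem_toFinset, hL.hF]; simp
  have hab : c ≠ d := by
    rintro rfl
    exact hL.dis c (Walk.end_mem_support _) (Walk.end_mem_support _)
  exact ((Sym2.mem_and_mem_iff hab).1 ⟨h1, h2⟩)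

lemma Lk.notMem_edges (hL : Lk e.toFinset f.toFinset p q) : e ∉ p.edges ∧ f ∉ p.edges := by
  have he := hL.e_eq
  have hf := hL.f_eq
  constructor
  · apply not_mem_edges_of
    intro x y hx hy hxe hye
    rw [he, Sym2.mem_iff] at hxe hye
    have hb : b ∉ p.support := fun h => hL.dis b h (Walk.start_mem_support _)
    rcases hxe with rfl | rfl <;> rcases hye with rfl | rfl
    · rfl
    · exact absurd hy hb
    · exact absurd hx hb
    · rfl
  · apply not_mem_edges_of
    intro x y hx hy hxe hye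
    rw [hf, Sym2.mem_iff] at hxe hye
    have hb : d ∉ p.support := fun h => hL.dis d h (Walk.end_mem_support _)
    rcases hxe with rfl | rfl <;> rcases hye with rfl | rfl
    · rfl
    · exact absurd hy hb
    · exact absurd hx hb
    · rfl

/-- from a pair of disjoint paths to a circle through `e` and `f` -/
theorem circle_of_lk (hL : Lk e.toFinset f.toFinset p q) (he : e ∈ G.edgeSet)
    (hf : f ∈ G.edgeSet) (hef : e ≠ f) : ∃ (v : V) (k : G.Walk v v), k.IsCycle ∧
      k.edges.Perm (e :: f :: (p.edges ++ q.edges)) := by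
  have he' := hL.e_eq
  have hf' := hL.f_eq
  have hba : G.Adj b a := by
    rw [he'] at he
    exact he.symm
  have hcd : G.Adj c d := by
    rw [hf'] at hf
    exact hf
  have hcq : c ∉ q.reverse.support := by
    rw [Walk.support_reverse, List.mem_reverse]
    exact hL.dis c (Walk.end_mem_support _)
  have h1 : (Walk.cons hcd q.reverse).IsPath := by
    rw [Walk.cons_isPath_iff]
    exact ⟨hL.qp.reverse, hcq⟩
  have h2 : (p.append (Walk.cons hcd q.reverse)).IsPath := by
    apply path_append hL.pp h1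
    intro z hz hz'
    rw [Walk.support_cons, List.mem_cons, Walk.support_reverse, List.mem_reverse] at hz'
    rcases hz' with h | h
    · exact h
    · exact absurd h (hL.dis z hz)
  have hqe : e ∉ q.edges := (hL.symm.notMem_edges).1
  refine ⟨b, Walk.cons hba (p.append (Walk.cons hcd q.reverse)), ?_, ?_⟩
  · rw [Walk.cons_isCycle_iff]
    refine ⟨h2, ?_⟩
    rw [Walk.edges_append, Walk.edges_cons, Walk.edges_reverse, List.mem_append, List.mem_cons,
      List.mem_reverse, Sym2.eq_swap, ← he', ← hf']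
    rintro (h | h | h)
    · exact hL.notMem_edges.1 h
    · exact hef h
    · exact hqe h
  · rw [Walk.edges_cons, Walk.edges_append, Walk.edges_cons, Walk.edges_reverse, Sym2.eq_swap,
      ← he', ← hf']
    refine List.Perm.cons _ ?_
    have h3 : (p.edges ++ f :: q.edges.reverse).Perm (f :: (p.edges ++ q.edges.reverse)) :=
      List.perm_middle
    refine h3.trans (List.Perm.cons _ ?_)
    exact (List.Perm.refl _).append (List.reverse_perm _)

/-! ### The hull -/

lemma hull_le (Γ : SimpleGraph V) (e f : Sym2 V) : hull Γ e f ≤ Γ := by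
  intro x y h
  unfold hull at h
  rw [fromEdgeSet_adj] at h
  obtain ⟨⟨-, -, v, c, -, -, -, h4⟩, -⟩ := h
  exact c.adj_of_mem_edges h4

lemma mem_hull {Γ : SimpleGraph V} {e f d : Sym2 V} (hd : d ∈ Γ.edgeSet) :
    d ∈ (hull Γ e f).edgeSet ↔ d ≠ e ∧ d ≠ f ∧
      ∃ (v : V) (c : Γ.Walk v v), c.IsCycle ∧ e ∈ c.edges ∧ f ∈ c.edges ∧ d ∈ c.edges := by
  unfold hull
  rw [edgeSet_fromEdgeSet, Set.mem_sdiff, Set.mem_ofPred_eq]
  constructor
  · exact fun h => h.1
  · intro h
    refine ⟨h, ?_⟩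
    exact Γ.not_isDiag_of_mem_edgeSet hd

/-- pairs of paths in the hull -/
lemma Lk.toHull {Γ : SimpleGraph V} {p : Γ.Walk a c} {q : Γ.Walk b d}
    (hL : Lk e.toFinset f.toFinset p q) (he : e ∈ Γ.edgeSet) (hf : f ∈ Γ.edgeSet) (hef : e ≠ f) :
    ∃ (p' : (hull Γ e f).Walk a c) (q' : (hull Γ e f).Walk b d),
      Lk e.toFinset f.toFinset p' q' ∧ p'.edges = p.edges ∧ q'.edges = q.edges := by
  obtain ⟨v, k, hk, hperm⟩ := circle_of_lk hL he hf hef
  have hke : e ∈ k.edges := hperm.mem_iff.2 (by simp)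
  have hkf : f ∈ k.edges := hperm.mem_iff.2 (by simp)
  have hp : ∀ x ∈ p.edges, x ∈ (hull Γ e f).edgeSet := by
    intro x hx
    rw [mem_hull (p.edges_subset_edgeSet hx)]
    refine ⟨?_, ?_, v, k, hk, hke, hkf, hperm.mem_iff.2 (by simp [hx])⟩
    · rintro rfl
      exact hL.notMem_edges.1 hx
    · rintro rfl
      exact hL.notMem_edges.2 hx
  have hq : ∀ x ∈ q.edges, x ∈ (hull Γ e f).edgeSet := by
    intro x hx
    rw [mem_hull (q.edges_subset_edgeSet hx)]
    refine ⟨?_, ?_, v, k, hk, hke, hkf, hperm.mem_iff.2 (by simp [hx])⟩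
    · rintro rfl
      exact hL.symm.notMem_edges.1 hx
    · rintro rfl
      exact hL.symm.notMem_edges.2 hx
  refine ⟨p.transfer _ hp, q.transfer _ hq, ⟨hL.pp.transfer hp, hL.qp.transfer hq, ?_, hL.hE,
    hL.hF⟩, Walk.edges_transfer _ _, Walk.edges_transfer _ _⟩
  intro z hz
  rw [Walk.support_transfer] at hz ⊢
  exact hL.dis z hz

/-- back to `Γ` -/
lemma Lk.ofLe {Γ H : SimpleGraph V} (hle : H ≤ Γ) {E F : Finset V} {p : H.Walk a c}
    {q : H.Walk b d} (hL : Lk E F p q) :
    ∃ (p' : Γ.Walk a c) (q' : Γ.Walk b d),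
      Lk E F p' q' ∧ p'.edges = p.edges ∧ q'.edges = q.edges := by
  have hp : ∀ x ∈ p.edges, x ∈ Γ.edgeSet := fun x hx =>
    edgeSet_subset_edgeSet.2 hle (p.edges_subset_edgeSet hx)
  have hq : ∀ x ∈ q.edges, x ∈ Γ.edgeSet := fun x hx =>
    edgeSet_subset_edgeSet.2 hle (q.edges_subset_edgeSet hx)
  refine ⟨p.transfer _ hp, q.transfer _ hq, ⟨hL.pp.transfer hp, hL.qp.transfer hq, ?_, hL.hE,
    hL.hF⟩, Walk.edges_transfer _ _, Walk.edges_transfer _ _⟩
  intro z hz
  rw [Walk.support_transfer] at hz ⊢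
  exact hL.dis z hz

/-- the sign of the circle of a pair of paths -/
lemma eps_circle (σ : Sym2 V → ℤˣ) {H : SimpleGraph V} {p : H.Walk a c} {q : H.Walk b d} {v : V}
    {k : G.Walk v v} (h : k.edges.Perm (e :: f :: (p.edges ++ q.edges))) :
    eps (sgn σ k) = eps (σ e) + eps (σ f) + (ww (ws σ) p + ww (ws σ) q) := by
  rw [sgn_eq_of_perm σ h, List.map_cons, List.prod_cons, List.map_cons, List.prod_cons,
    List.map_append, List.prod_append, eps_mul, eps_mul, eps_mul, ww_ws, ww_ws]
  unfold sgn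
  ring

lemma sgn_transfer (σ : Sym2 V → ℤˣ) {H : SimpleGraph V} {u v : V} {p : G.Walk u v}
    {q : H.Walk u v} (h : p.edges = q.edges) : sgn σ p = sgn σ q := by
  unfold sgn
  rw [h]

/-! ### Separations and chains -/

variable [Fintype V]

lemma IsSep.toSp {H : SimpleGraph V} {e f : Sym2 V} {X Y : Finset V} (h : IsSep H e f X Y) :
    Sp H e.toFinset f.toFinset X Y where
  union := h.union
  card := h.card
  left := fun x hx => h.left x (Sym2.mem_toFinset.1 hx)
  right := fun x hx => h.right x (Sym2.mem_toFinset.1 hx)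
  far := fun x hx hx' y hy hy' => h.far x y hx hx' hy hy'

lemma Sp.toIsSep {H : SimpleGraph V} {e f : Sym2 V} {X Y : Finset V}
    (h : Sp H e.toFinset f.toFinset X Y) : IsSep H e f X Y where
  union := h.union
  card := h.card
  left := fun _ hx => h.left (Sym2.mem_toFinset.2 hx)
  right := fun _ hx => h.right (Sym2.mem_toFinset.2 hx)
  far := fun x y hx hx' hy hy' => h.far x hx hx' y hy hy'

lemma Chn.toChain (σ : Sym2 V → ℤˣ) {H : SimpleGraph V} {e f : Sym2 V} {n : ℕ}
    {X Y : ℕ → Finset V} (h : Chn H e.toFinset f.toFinset (ws σ) n X Y) :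
    IsBalancedChain H σ e f n X Y where
  pos := h.pos
  X_zero := h.X0
  Y_zero := h.Y0
  X_last := h.Xn
  Y_last := h.Yn
  sep := fun i hi => (h.sp i hi).toIsSep
  mono := h.mono
  balanced := fun i hi v c hc hz => by
    rw [← eps_eq_zero, ← ww_ws]
    exact h.bal i hi v c hc fun z hzc => mem_inter.1 (hz z hzc)

lemma IsBalancedChain.toChn {σ : Sym2 V → ℤˣ} {H : SimpleGraph V} {e f : Sym2 V} {n : ℕ}
    {X Y : ℕ → Finset V} (h : IsBalancedChain H σ e f n X Y) :
    Chn H e.toFinset f.toFinset (ws σ) n X Y where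
  pos := h.pos
  X0 := h.X_zero
  Y0 := h.Y_zero
  Xn := h.X_last
  Yn := h.Y_last
  sp := fun i hi => (h.sep i hi).toSp
  mono := h.mono
  bal := fun i hi v c hc hz => by
    rw [ww_ws, eps_eq_zero]
    exact h.balanced i hi v c hc fun z hzc => mem_inter.2 (hz z hzc)

/-! ### The theorem for one pair of edges -/

variable {Γ : SimpleGraph V} {σ : Sym2 V → ℤˣ}

/-- all circles through `e` and `f` have the same sign: then there is a chain -/
theorem chain_of_same (hV : 2 < Fintype.card V) (he : e ∈ Γ.edgeSet) (hf : f ∈ Γ.edgeSet)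
    (hef : e ≠ f) (hex : ∃ (v : V) (c : Γ.Walk v v), c.IsCycle ∧ e ∈ c.edges ∧ f ∈ c.edges)
    {s : ℤˣ} (hs : ∀ (v : V) (c : Γ.Walk v v), c.IsCycle → e ∈ c.edges → f ∈ c.edges →
      sgn σ c = s) :
    ∃ (n : ℕ) (X Y : ℕ → Finset V), IsBalancedChain (hull Γ e f) σ e f n X Y := by
  have hU : Uni (hull Γ e f) (ws σ) e.toFinset f.toFinset (eps s + eps (σ e) + eps (σ f)) := by
    intro a b c d p q hL
    obtain ⟨p', q', hL', hp', hq'⟩ := hL.ofLe (hull_le Γ e f)
    obtain ⟨v, k, hk, hperm⟩ := circle_of_lk hL' he hf hef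
    have h1 := hs v k hk (hperm.mem_iff.2 (by simp)) (hperm.mem_iff.2 (by simp))
    rw [hp', hq'] at hperm
    have h2 := eps_circle σ hperm
    rw [h1] at h2
    linear_combination -h2 - two_eq (eps (σ e)) - two_eq (eps (σ f))
  have hH : ∀ u v, (hull Γ e f).Adj u v → ∃ (a b c d : V) (p : (hull Γ e f).Walk a c)
      (q : (hull Γ e f).Walk b d), Lk e.toFinset f.toFinset p q ∧
      ∃ i < p.length, s(u, v) = s(p.getVert i, p.getVert (i + 1)) := by
    intro u v huv
    have h1 : s(u, v) ∈ (hull Γ e f).edgeSet := huv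
    rw [mem_hull (show s(u, v) ∈ Γ.edgeSet from hull_le Γ e f huv)] at h1
    obtain ⟨hne, hnf, x, c, hc, hce, hcf, hcd⟩ := h1
    obtain ⟨a, b, c', d, p, q, hL, hperm⟩ := lk_of_circle hc hce hcf hef
    obtain ⟨p', q', hL', hp', hq'⟩ := hL.toHull he hf hef
    have h2 : s(u, v) ∈ p'.edges ∨ s(u, v) ∈ q'.edges := by
      have h3 := hperm.mem_iff.1 hcd
      rw [List.mem_cons, List.mem_cons, List.mem_append] at h3
      rw [hp', hq']
      rcases h3 with h3 | h3 | h3
      · exact absurd h3 hne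
      · exact absurd h3 hnf
      · exact h3
    have key : ∀ {x y : V} (r : (hull Γ e f).Walk x y), s(u, v) ∈ r.edges →
        ∃ i < r.length, s(u, v) = s(r.getVert i, r.getVert (i + 1)) := by
      intro x y r hr
      obtain ⟨z, t, hzt, r1, r2, h4, rfl⟩ := split_edge r hr
      refine ⟨r1.length, ?_, ?_⟩
      · rw [Walk.length_append, Walk.length_cons]
        omega
      · rw [h4, Walk.getVert_append, Walk.getVert_append, if_neg (by omega), if_neg (by omega)]
        rw [show r1.length - r1.length = 0 by omega, show r1.length + 1 - r1.length = 1 by omega,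
          Walk.getVert_zero, Walk.getVert_cons_succ, Walk.getVert_zero]
    rcases h2 with h2 | h2
    · exact ⟨a, b, c', d, p', q', hL', key p' h2⟩
    · exact ⟨b, a, d, c', q', p', hL'.symm, key q' h2⟩
  obtain ⟨v, c, hc, hce, hcf⟩ := hex
  obtain ⟨a, b, c', d, p, q, hL, -⟩ := lk_of_circle hc hce hcf hef
  obtain ⟨p', q', hL', -, -⟩ := hL.toHull he hf hef
  obtain ⟨n, X, Y, h⟩ := exists_chain (ws_symm σ) (ws_self σ) hU hH (edge_card he) (edge_card hf)
    hV ⟨a, b, c', d, p', q', hL'⟩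
  exact ⟨n, X, Y, h.toChain σ⟩

/-- a balanced chain splits every negative circle -/
theorem split_of_chain {n : ℕ} {X Y : ℕ → Finset V}
    (h : IsBalancedChain (hull Γ e f) σ e f n X Y) {v : V} (c : (hull Γ e f).Walk v v)
    (hc : c.IsCycle) (hs : sgn σ c ≠ 1) :
    ∃ X Y : Finset V, IsSep (hull Γ e f) e f X Y ∧ IsSplit c X Y := by
  have h1 : ww (ws σ) c ≠ 0 := by
    rw [ww_ws]
    intro h2
    exact hs (eps_eq_zero.1 h2)
  obtain ⟨X', Y', h2, h3, h4⟩ := h.toChn.split c hc h1
  exact ⟨X', Y', h2.toIsSep, h3, h4⟩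

/-- if all negative circles are split then all circles through `e` and `f` have the same sign -/
theorem same_of_split (he : e ∈ Γ.edgeSet) (hf : f ∈ Γ.edgeSet) (hef : e ≠ f)
    (h : ∀ (v : V) (c : (hull Γ e f).Walk v v), c.IsCycle → sgn σ c ≠ 1 →
      ∃ X Y : Finset V, IsSep (hull Γ e f) e f X Y ∧ IsSplit c X Y)
    {u v : V} {c : Γ.Walk u u} {c' : Γ.Walk v v} (hc : c.IsCycle) (hce : e ∈ c.edges)
    (hcf : f ∈ c.edges) (hc' : c'.IsCycle) (hce' : e ∈ c'.edges) (hcf' : f ∈ c'.edges) :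
    sgn σ c = sgn σ c' := by
  obtain ⟨a, b, x, d, p, q, hL, hperm⟩ := lk_of_circle hc hce hcf hef
  obtain ⟨a', b', x', d', p', q', hL', hperm'⟩ := lk_of_circle hc' hce' hcf' hef
  obtain ⟨p1, q1, hL1, hp1, hq1⟩ := hL.toHull he hf hef
  obtain ⟨p2, q2, hL2, hp2, hq2⟩ := hL'.toHull he hf hef
  rw [← hp1, ← hq1] at hperm
  rw [← hp2, ← hq2] at hperm'
  rw [← eps_inj, eps_circle σ hperm, eps_circle σ hperm']
  congr 1
  apply uni_of_split (ws_symm σ) (ws_self σ) (edge_card he) _ hL1 hL2
  intro u k hk hodd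
  obtain ⟨X, Y, h1, h2, h3⟩ := h u k hk (by
    intro h4
    apply hodd
    rw [ww_ws, h4]
    rfl)
  exact ⟨X, Y, h1.toSp, h2, h3⟩

end Pool.Agent.Lib.MP_ba489c_co
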