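import Pool.Agent.Lib.MP_ba489c_co.Walks

/-!
From pairs of paths to allowed permutations and back.
-/

set_option autoImplicit false
set_option linter.unusedSectionVars false

namespace Pool.Agent.Lib.MP_ba489c_co

open Finset SimpleGraph

section Fun

variable {V : Type*} [DecidableEq V] {G : SimpleGraph V} {w : V → V → ZMod 2}

/-- walk from a function -/
lemma exists_walk (n : ℕ) : ∀ f : ℕ → V, (∀ i < n, G.Adj (f i) (f (i + 1))) →
    ∃ p : G.Walk (f 0) (f n), p.length = n ∧ ∀ i ≤ n, p.getVert i = f i := by
  induction n with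
  | zero =>
    intro f _
    exact ⟨Walk.nil, rfl, fun i hi => by
      obtain rfl : i = 0 := by omega
      rfl⟩
  | succ n ih =>
    intro f h
    obtain ⟨p, h1, h2⟩ := ih (fun i => f (i + 1)) (fun i hi => h (i + 1) (by omega))
    refine ⟨Walk.cons (h 0 (by omega)) p, by rw [Walk.length_cons, h1], ?_⟩
    intro i hi
    rcases i with _ | i
    · rfl
    · rw [Walk.getVert_cons_succ]
      exact h2 i (by omega)

lemma exists_path_of_fun (n : ℕ) (f : ℕ → V) (h : ∀ i < n, G.Adj (f i) (f (i + 1)))
    (hinj : ∀ i ≤ n, ∀ j ≤ n, f i = f j → i = j) :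
    ∃ p : G.Walk (f 0) (f n), p.IsPath ∧ (∀ z, z ∈ p.support ↔ ∃ i ≤ n, f i = z) ∧
      ww w p = ∑ i ∈ range n, w (f i) (f (i + 1)) ∧ p.length = n ∧
      ∀ i ≤ n, p.getVert i = f i := by
  obtain ⟨p, h1, h2⟩ := exists_walk n f h
  refine ⟨p, ?_, ?_, ?_, h1, h2⟩
  · rw [← Walk.IsPath.getVert_injOn_iff]
    intro i hi j hj he
    rw [Set.mem_ofPred_eq, h1] at hi hj
    rw [h2 i hi, h2 j hj] at he
    exact hinj i hi j hj he
  · intro z
    rw [Walk.mem_support_iff_exists_getVert]
    constructor
    · rintro ⟨i, hi, hi'⟩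
      rw [h1] at hi'
      exact ⟨i, hi', by rw [← h2 i hi', hi]⟩
    · rintro ⟨i, hi, hz⟩
      exact ⟨i, by rw [h2 i hi, hz], by rw [h1]; exact hi⟩
  · rw [ww_eq_sum, h1]
    apply sum_congr rfl
    intro i hi
    rw [mem_range] at hi
    rw [h2 i (by omega), h2 (i + 1) (by omega)]

lemma exists_cycle_of_fun (n : ℕ) (hn : 3 ≤ n) (f : ℕ → V)
    (h : ∀ i < n, G.Adj (f i) (f (i + 1))) (hc : f n = f 0)
    (hinj : ∀ i < n, ∀ j < n, f i = f j → i = j) :
    ∃ k : G.Walk (f 0) (f 0), k.IsCycle ∧ (∀ z, z ∈ k.support ↔ ∃ i < n, f i = z) ∧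
      ww w k = ∑ i ∈ range n, w (f i) (f (i + 1)) := by
  obtain ⟨p, h1, h2⟩ := exists_walk n f h
  obtain ⟨k, hk⟩ : ∃ k : G.Walk (f 0) (f 0), k.length = n ∧ ∀ i, k.getVert i = p.getVert i := by
    refine ⟨p.copy rfl hc, ?_, ?_⟩
    · rw [Walk.length_copy, h1]
    · intro i
      rw [Walk.getVert_copy]
  obtain ⟨k1, k2⟩ := hk
  have k3 : ∀ i ≤ n, k.getVert i = f i := fun i hi => by rw [k2, h2 i hi]
  refine ⟨k, ?_, ?_, ?_⟩
  · rw [Walk.isCycle_iff_isPath_tail_and_le_length, k1]
    refine ⟨?_, hn⟩
    rw [← Walk.IsPath.getVert_injOn_iff]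
    have hlen : k.tail.length = n - 1 := by
      rw [Walk.length_tail, k1]
    intro i hi j hj he
    rw [Set.mem_ofPred_eq, hlen] at hi hj
    rw [Walk.getVert_tail, Walk.getVert_tail, k3 _ (by omega), k3 _ (by omega)] at he
    rcases Nat.lt_or_ge (i + 1) n with hi' | hi' <;> rcases Nat.lt_or_ge (j + 1) n with hj' | hj'
    · have := hinj _ hi' _ hj' he
      omega
    · have e : j + 1 = n := by omega
      rw [e, hc] at he
      have := hinj _ hi' 0 (by omega) he
      omega
    · have e : i + 1 = n := by omega
      rw [e, hc] at he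
      have := hinj 0 (by omega) _ hj' he
      omega
    · omega
  · intro z
    rw [Walk.mem_support_iff_exists_getVert]
    constructor
    · rintro ⟨i, hi, hi'⟩
      rw [k1] at hi'
      rw [k3 i hi'] at hi
      rcases Nat.lt_or_ge i n with h3 | h3
      · exact ⟨i, h3, hi⟩
      · refine ⟨0, by omega, ?_⟩
        have : i = n := by omega
        rw [← hc, ← this, hi]
    · rintro ⟨i, hi, hz⟩
      exact ⟨i, by rw [k3 i (by omega), hz], by rw [k1]; omega⟩
  · rw [ww_eq_sum, k1]
    apply sum_congr rfl
    intro i hi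
    rw [mem_range] at hi
    rw [k3 i (by omega), k3 (i + 1) (by omega)]

lemma path_inj {u v : V} {p : G.Walk u v} (hp : p.IsPath) {i j : ℕ} (hi : i ≤ p.length)
    (hj : j ≤ p.length) (h : p.getVert i = p.getVert j) : i = j :=
  hp.getVert_injOn (by rw [Set.mem_ofPred_eq]; exact hi) (by rw [Set.mem_ofPred_eq]; exact hj) h

/-- next vertex -/
lemma formPerm_getVert {u v : V} {p : G.Walk u v} (hp : p.IsPath) {i : ℕ} (hi : i < p.length) :
    p.support.formPerm (p.getVert i) = p.getVert (i + 1) := by
  have hlen : p.support.length = p.length + 1 := p.length_support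
  have h1 := List.formPerm_apply_lt_getElem p.support hp.support_nodup i (by omega)
  rw [Walk.support_getElem_eq_getVert, Walk.support_getElem_eq_getVert] at h1
  exact h1

lemma formPerm_end {u v : V} {p : G.Walk u v} (hp : p.IsPath) :
    p.support.formPerm v = u := by
  have hlen : p.support.length = p.length + 1 := p.length_support
  have h1 := List.formPerm_apply_getElem p.support hp.support_nodup p.length (by omega)
  have h2 : (p.length + 1) % p.support.length = 0 := by
    rw [hlen, Nat.mod_self]
  rw [Walk.support_getElem_eq_getVert, Walk.support_getElem_eq_getVert, h2, Walk.getVert_zero,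
    Walk.getVert_length] at h1
  exact h1

end Fun

section Main

variable {V : Type*} [Fintype V] [DecidableEq V] {G : SimpleGraph V} {E F : Finset V}
  {w : V → V → ZMod 2}

/-- the sum of a function over the vertices of a path except its end -/
lemma sum_path {u v : V} {p : G.Walk u v} (hp : p.IsPath) (h : V → ZMod 2) :
    ∑ x ∈ p.support.toFinset.erase v, h x = ∑ i ∈ range p.length, h (p.getVert i) := by
  have himg : p.support.toFinset.erase v = (range p.length).image p.getVert := by
    ext x
    rw [mem_erase, List.mem_toFinset, Walk.mem_support_iff_exists_getVert, mem_image]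
    constructor
    · rintro ⟨hx, i, hi, hi'⟩
      refine ⟨i, ?_, hi⟩
      rw [mem_range]
      rcases Nat.lt_or_ge i p.length with h1 | h1
      · exact h1
      · have : i = p.length := by omega
        rw [this, Walk.getVert_length] at hi
        exact absurd hi.symm hx
    · rintro ⟨i, hi, rfl⟩
      rw [mem_range] at hi
      refine ⟨fun he => ?_, i, rfl, hi.le⟩
      have := path_inj hp hi.le le_rfl (by rw [Walk.getVert_length]; exact he)
      omega
  rw [himg, sum_image]
  intro i hi j hj he
  simp only [coe_range, Set.mem_Iio] at hi hj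
  exact path_inj hp hi.le hj.le he

/-- the complement of `F` -/
lemma Lk.compl_eq {a b c d : V} {p : G.Walk a c} {q : G.Walk b d} (hL : Lk E F p q) :
    Fᶜ = (p.support.toFinset.erase c ∪ q.support.toFinset.erase d) ∪
      (p.support.toFinset ∪ q.support.toFinset)ᶜ := by
  ext x
  have h1 := hL.dis x
  have h2 : c ∉ q.support := hL.dis c (Walk.end_mem_support _)
  have h3 : d ∉ p.support := fun h => hL.dis d h (Walk.end_mem_support _)
  have h4 : c ∈ p.support := Walk.end_mem_support _
  have h5 : d ∈ q.support := Walk.end_mem_support _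
  rw [hL.hF]
  simp only [mem_compl, mem_insert, mem_singleton, mem_union, mem_erase, List.mem_toFinset]
  constructor
  · intro h
    push Not at h
    by_cases h6 : x ∈ p.support
    · exact Or.inl (Or.inl ⟨h.1, h6⟩)
    · by_cases h7 : x ∈ q.support
      · exact Or.inl (Or.inr ⟨h.2, h7⟩)
      · exact Or.inr (by push Not; exact ⟨h6, h7⟩)
  · rintro ((h | h) | h) h'
    · rcases h' with h' | h'
      · exact h.1 h'
      · rw [h'] at h
        exact h3 h.2
    · rcases h' with h' | h'
      · rw [h'] at h
        exact h2 h.2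
      · exact h.1 h'
    · push Not at h
      rcases h' with h' | h'
      · rw [h'] at h
        exact h.1 h4
      · rw [h'] at h
        exact h.2 h5

lemma Lk.sum_compl {a b c d : V} {p : G.Walk a c} {q : G.Walk b d} (hL : Lk E F p q)
    (h : V → ZMod 2) : ∑ x ∈ Fᶜ, h x = (∑ i ∈ range p.length, h (p.getVert i)) +
      (∑ i ∈ range q.length, h (q.getVert i)) +
      ∑ x ∈ (p.support.toFinset ∪ q.support.toFinset)ᶜ, h x := by
  rw [hL.compl_eq, sum_union, sum_union, sum_path hL.pp, sum_path hL.qp]
  · rw [Finset.disjoint_left]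
    intro x hx hx'
    exact hL.dis x (by simpa using mem_of_mem_erase hx) (by simpa using mem_of_mem_erase hx')
  · rw [Finset.disjoint_left]
    intro x hx hx'
    rw [mem_compl, mem_union, not_or] at hx'
    rcases mem_union.1 hx with h1 | h1
    · exact hx'.1 (mem_of_mem_erase h1)
    · exact hx'.2 (mem_of_mem_erase h1)

/-- From a pair of paths to an allowed permutation. -/
theorem Lk.toPerm (h0 : ∀ v, w v v = 0) {a b c d : V} {p : G.Walk a c} {q : G.Walk b d}
    (hL : Lk E F p q) :
    ∃ τ : Equiv.Perm V, Al G E F τ ∧ Wt F w τ = ww w p + ww w q ∧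
      (∀ i < p.length, τ (p.getVert i) = p.getVert (i + 1)) ∧
      (∀ i < q.length, τ (q.getVert i) = q.getVert (i + 1)) := by
  set τ := p.support.formPerm * q.support.formPerm with hτ
  have hp : ∀ x, x ∈ p.support → τ x = p.support.formPerm x := by
    intro x hx
    rw [hτ, Equiv.Perm.mul_apply, List.formPerm_apply_of_notMem (hL.dis x hx)]
  have hq : ∀ x, x ∈ q.support → τ x = q.support.formPerm x := by
    intro x hx
    rw [hτ, Equiv.Perm.mul_apply, List.formPerm_apply_of_notMem]
    intro h
    exact hL.dis _ h (List.formPerm_apply_mem_of_mem hx)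
  have hr : ∀ x, x ∉ p.support → x ∉ q.support → τ x = x := by
    intro x hx hx'
    rw [hτ, Equiv.Perm.mul_apply, List.formPerm_apply_of_notMem hx',
      List.formPerm_apply_of_notMem hx]
  have hp' : ∀ i < p.length, τ (p.getVert i) = p.getVert (i + 1) := by
    intro i hi
    rw [hp _ (p.getVert_mem_support i), formPerm_getVert hL.pp hi]
  have hq' : ∀ i < q.length, τ (q.getVert i) = q.getVert (i + 1) := by
    intro i hi
    rw [hq _ (q.getVert_mem_support i), formPerm_getVert hL.qp hi]
  have hpc : τ c = a := by rw [hp c (Walk.end_mem_support _), formPerm_end hL.pp]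
  have hqd : τ d = b := by rw [hq d (Walk.end_mem_support _), formPerm_end hL.qp]
  have haq : a ∉ q.support := hL.dis a (Walk.start_mem_support _)
  have hbp : b ∉ p.support := fun h => hL.dis b h (Walk.start_mem_support _)
  have hcq : c ∉ q.support := hL.dis c (Walk.end_mem_support _)
  have hdp : d ∉ p.support := fun h => hL.dis d h (Walk.end_mem_support _)
  have hal : Al G E F τ := by
    intro x
    unfold Bp
    rw [hL.hE, hL.hF]
    simp only [mem_insert, mem_singleton]
    by_cases hxp : x ∈ p.support
    · obtain ⟨i, hi, hi'⟩ := Walk.mem_support_iff_exists_getVert.1 hxp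
      rcases Nat.lt_or_ge i p.length with h1 | h1
      · right
        have hτx : τ x = p.getVert (i + 1) := by rw [← hi, hp' i h1]
        have hx1 : p.getVert (i + 1) ∈ p.support := p.getVert_mem_support _
        refine ⟨?_, ?_, Or.inr ?_⟩
        · rintro (h2 | h2)
          · have := path_inj hL.pp hi' le_rfl (by rw [Walk.getVert_length, hi]; exact h2)
            omega
          · rw [h2] at hxp
            exact hdp hxp
        · rw [hτx]
          rintro (h2 | h2)
          · have := path_inj hL.pp (i := i + 1) (j := 0) h1 (Nat.zero_le _)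
              (by rw [Walk.getVert_zero]; exact h2)
            omega
          · rw [h2] at hx1
            exact hbp hx1
        · rw [hτx, ← hi]
          exact p.adj_getVert_succ h1
      · left
        have h2 : i = p.length := by omega
        rw [h2, Walk.getVert_length] at hi
        rw [← hi]
        exact ⟨Or.inl rfl, Or.inl hpc⟩
    · by_cases hxq : x ∈ q.support
      · obtain ⟨i, hi, hi'⟩ := Walk.mem_support_iff_exists_getVert.1 hxq
        rcases Nat.lt_or_ge i q.length with h1 | h1
        · right
          have hτx : τ x = q.getVert (i + 1) := by rw [← hi, hq' i h1]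
          have hx1 : q.getVert (i + 1) ∈ q.support := q.getVert_mem_support _
          refine ⟨?_, ?_, Or.inr ?_⟩
          · rintro (h2 | h2)
            · rw [h2] at hxq
              exact hcq hxq
            · have := path_inj hL.qp hi' le_rfl (by rw [Walk.getVert_length, hi]; exact h2)
              omega
          · rw [hτx]
            rintro (h2 | h2)
            · rw [h2] at hx1
              exact haq hx1
            · have := path_inj hL.qp (i := i + 1) (j := 0) h1 (Nat.zero_le _)
                (by rw [Walk.getVert_zero]; exact h2)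
              omega
          · rw [hτx, ← hi]
            exact q.adj_getVert_succ h1
        · left
          have h2 : i = q.length := by omega
          rw [h2, Walk.getVert_length] at hi
          rw [← hi]
          exact ⟨Or.inr rfl, Or.inr hqd⟩
      · right
        rw [hr x hxp hxq]
        refine ⟨?_, ?_, Or.inl rfl⟩
        · rintro (rfl | rfl)
          · exact hxp (Walk.end_mem_support _)
          · exact hxq (Walk.end_mem_support _)
        · rintro (rfl | rfl)
          · exact hxp (Walk.start_mem_support _)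
          · exact hxq (Walk.start_mem_support _)
  refine ⟨τ, hal, ?_, hp', hq'⟩
  unfold Wt
  rw [hL.sum_compl, ww_eq_sum, ww_eq_sum]
  have e1 : ∑ x ∈ (p.support.toFinset ∪ q.support.toFinset)ᶜ, w x (τ x) = 0 := by
    apply sum_eq_zero
    intro x hx
    rw [mem_compl, mem_union, not_or, List.mem_toFinset, List.mem_toFinset] at hx
    rw [hr x hx.1 hx.2, h0]
  rw [e1, add_zero]
  congr 1
  · apply sum_congr rfl
    intro i hi
    rw [hp' i (mem_range.1 hi)]
  · apply sum_congr rfl
    intro i hi
    rw [hq' i (mem_range.1 hi)]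

/-- the path of an allowed permutation starting in a vertex of `E` -/
lemma Al.path {τ : Equiv.Perm V} (hτ : Al G E F τ) {e : V} (he : e ∈ E) :
    ∃ (n : ℕ) (p : G.Walk e ((τ ^ n) e)), (τ ^ n) e ∈ F ∧ p.IsPath ∧
      (∀ z, z ∈ p.support ↔ ∃ i ≤ n, (τ ^ i) e = z) ∧ p.length = n ∧
      (∀ i ≤ n, p.getVert i = (τ ^ i) e) ∧ ∀ i < n, (τ ^ i) e ∉ F := by
  classical
  have hex : ∃ n, (τ ^ n) e ∈ F := by
    refine ⟨orderOf τ - 1, ?_⟩
    rw [← hτ.mem, ← Equiv.Perm.mul_apply, ← pow_succ', Nat.sub_add_cancel (orderOf_pos τ),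
      pow_orderOf_eq_one]
    exact he
  set n := Nat.find hex with hn
  have h1 : (τ ^ n) e ∈ F := Nat.find_spec hex
  have h2 : ∀ i < n, (τ ^ i) e ∉ F := fun i hi => Nat.find_min hex hi
  have h3 : ∀ i, (τ ^ (i + 1)) e = τ ((τ ^ i) e) := by
    intro i
    rw [pow_succ', Equiv.Perm.mul_apply]
  have hadj : ∀ i < n, G.Adj ((τ ^ i) e) ((τ ^ (i + 1)) e) := by
    intro i hi
    rw [h3]
    rcases hτ ((τ ^ i) e) with h4 | h4
    · exact absurd h4.1 (h2 i hi)
    · rcases h4.2.2 with h5 | h5
      · exfalso
        have h6 : τ e = e := by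
          apply (τ ^ i).injective
          have h7 : (τ ^ i) (τ e) = τ ((τ ^ i) e) := by
            rw [← Equiv.Perm.mul_apply, ← pow_succ, pow_succ', Equiv.Perm.mul_apply]
          rw [h7]
          exact h5.symm
        have h7 : e ∈ F := by
          rw [← hτ.mem, h6]
          exact he
        exact h2 0 (by omega) (by simpa using h7)
      · exact h5
  have hlt : ∀ i j, i < j → j ≤ n → (τ ^ i) e ≠ (τ ^ j) e := by
    intro i j hij hj heq
    have h4 : τ ^ j = τ ^ i * τ ^ (j - i) := by rw [← pow_add]; congr 1; omega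
    rw [h4, Equiv.Perm.mul_apply] at heq
    have h5 : e = (τ ^ (j - i)) e := (τ ^ i).injective heq
    have h6 : j - i = (j - i - 1) + 1 := by omega
    rw [h6, h3] at h5
    have h7 : (τ ^ (j - i - 1)) e ∈ F := by
      rw [← hτ.mem, ← h5]
      exact he
    exact h2 _ (by omega) h7
  obtain ⟨p, p1, p2, -, p3, p4⟩ := exists_path_of_fun (w := fun _ _ => 0) n (fun i => (τ ^ i) e)
    hadj (by
      intro i hi j hj heq
      rcases Nat.lt_trichotomy i j with h4 | h4 | h4
      · exact absurd heq (hlt i j h4 hj)
      · exact h4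
      · exact absurd heq.symm (hlt j i h4 hi))
  exact ⟨n, p, h1, p1, p2, p3, p4, h2⟩

/-- From an allowed permutation to a pair of paths. -/
theorem Al.toLk {τ : Equiv.Perm V} (hτ : Al G E F τ) {a b : V} (hab : a ≠ b) (hE : E = {a, b})
    (hF : F.card = 2) : ∃ (c d : V) (p : G.Walk a c) (q : G.Walk b d), Lk E F p q ∧
      (∀ i < p.length, τ (p.getVert i) = p.getVert (i + 1)) ∧
      (∀ i < q.length, τ (q.getVert i) = q.getVert (i + 1)) ∧
      (∀ x, x ∉ p.support → x ∉ q.support → τ x ∉ p.support ∧ τ x ∉ q.support) := by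
  have ha : a ∈ E := by rw [hE]; simp
  have hb : b ∈ E := by rw [hE]; simp
  obtain ⟨n, p, p1, p2, p3, p4, p5, p6⟩ := hτ.path ha
  obtain ⟨m, q, q1, q2, q3, q4, q5, q6⟩ := hτ.path hb
  have h3 : ∀ (i : ℕ) (e : V), (τ ^ (i + 1)) e = τ ((τ ^ i) e) := by
    intro i e
    rw [pow_succ', Equiv.Perm.mul_apply]
  have key : ∀ (e e' : V) (i j m : ℕ), e ∈ E → e ≠ e' → i ≤ j → j ≤ m →
      (∀ i < m, (τ ^ i) e' ∉ F) → (τ ^ i) e ≠ (τ ^ j) e' := by
    intro e e' i j m he hne hij hj hm heq
    have h4 : τ ^ j = τ ^ i * τ ^ (j - i) := by rw [← pow_add]; congr 1; omega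
    rw [h4, Equiv.Perm.mul_apply] at heq
    have h5 : e = (τ ^ (j - i)) e' := (τ ^ i).injective heq
    rcases Nat.eq_zero_or_pos (j - i) with h6 | h6
    · rw [h6] at h5
      exact hne (by simpa using h5)
    · have h7 : j - i = (j - i - 1) + 1 := by omega
      rw [h7, h3] at h5
      have h8 : (τ ^ (j - i - 1)) e' ∈ F := by
        rw [← hτ.mem, ← h5]
        exact he
      exact hm _ (by omega) h8
  have hdis : ∀ v ∈ p.support, v ∉ q.support := by
    intro v hv hv'
    obtain ⟨i, hi, hi'⟩ := (p3 v).1 hv
    obtain ⟨j, hj, hj'⟩ := (q3 v).1 hv'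
    rcases Nat.le_total i j with h4 | h4
    · exact key a b i j m ha hab h4 hj q6 (hi'.trans hj'.symm)
    · exact key b a j i n hb hab.symm h4 hi p6 (hj'.trans hi'.symm)
  have hF' : F = {(τ ^ n) a, (τ ^ m) b} := by
    symm
    apply eq_of_subset_of_card_le
    · intro x hx
      rw [mem_insert, mem_singleton] at hx
      rcases hx with rfl | rfl
      · exact p1
      · exact q1
    · rw [hF, card_pair]
      intro h
      exact hdis _ (Walk.end_mem_support p) (by rw [h]; exact Walk.end_mem_support q)
  have hL : Lk E F p q := ⟨p2, q2, hdis, hE, hF'⟩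
  refine ⟨_, _, p, q, hL, ?_, ?_, ?_⟩
  · intro i hi
    rw [p4] at hi
    rw [p5 i (by omega), p5 (i + 1) (by omega), h3]
  · intro i hi
    rw [q4] at hi
    rw [q5 i (by omega), q5 (i + 1) (by omega), h3]
  · intro x hx hx'
    have hxF : x ∉ F := by
      rw [hF', mem_insert, mem_singleton]
      rintro (rfl | rfl)
      · exact hx (Walk.end_mem_support _)
      · exact hx' (Walk.end_mem_support _)
    have hxE : τ x ∉ E := fun h => hxF ((hτ.mem x).1 h)
    constructor
    · intro h
      obtain ⟨i, hi, hi'⟩ := (p3 _).1 h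
      rcases i with _ | i
      · apply hxE
        rw [← hi']
        simpa using ha
      · rw [h3] at hi'
        have := τ.injective hi'
        exact hx ((p3 x).2 ⟨i, by omega, this⟩)
    · intro h
      obtain ⟨i, hi, hi'⟩ := (q3 _).1 h
      rcases i with _ | i
      · apply hxE
        rw [← hi']
        simpa using hb
      · rw [h3] at hi'
        have := τ.injective hi'
        exact hx' ((q3 x).2 ⟨i, by omega, this⟩)

/-- If all pairs of paths have the same weight and all circles missing a pair of paths are even,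
then all allowed permutations have the same weight. -/
theorem Al.weight_of (hw : ∀ u v, w u v = w v u) (h0 : ∀ v, w v v = 0) {s : ZMod 2}
    (hU : Uni G w E F s) (hK : ∀ (a b c d : V) (p : G.Walk a c) (q : G.Walk b d), Lk E F p q →
      ∀ (u : V) (k : G.Walk u u), k.IsCycle →
      (∀ z ∈ k.support, z ∉ p.support ∧ z ∉ q.support) → ww w k = 0)
    (hE : E.card = 2) (hF : F.card = 2) {τ : Equiv.Perm V} (hτ : Al G E F τ) :
    Wt F w τ = s := by
  obtain ⟨a, b, hab, hE'⟩ := card_eq_two.1 hE
  obtain ⟨c, d, p, q, hL, hp, hq, hr⟩ := hτ.toLk hab hE' hF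
  unfold Wt
  rw [hL.sum_compl]
  have e1 : ∑ i ∈ range p.length, w (p.getVert i) (τ (p.getVert i)) = ww w p := by
    rw [ww_eq_sum]
    apply sum_congr rfl
    intro i hi
    rw [hp i (mem_range.1 hi)]
  have e2 : ∑ i ∈ range q.length, w (q.getVert i) (τ (q.getVert i)) = ww w q := by
    rw [ww_eq_sum]
    apply sum_congr rfl
    intro i hi
    rw [hq i (mem_range.1 hi)]
  rw [e1, e2, hU _ _ _ _ _ _ hL]
  have e3 : ∑ x ∈ (p.support.toFinset ∪ q.support.toFinset)ᶜ, w x (τ x) = 0 := by
    apply sum_orbits τ (fun x => w x (τ x))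
    · intro u hu
      rw [mem_compl, mem_union, not_or, List.mem_toFinset, List.mem_toFinset] at hu ⊢
      exact hr u hu.1 hu.2
    · intro u hu n hn hnu hinj
      have hmem : ∀ i, (τ ^ i) u ∉ p.support ∧ (τ ^ i) u ∉ q.support := by
        intro i
        induction i with
        | zero =>
          rw [mem_compl, mem_union, not_or, List.mem_toFinset, List.mem_toFinset] at hu
          simpa using hu
        | succ i ih =>
          rw [pow_succ', Equiv.Perm.mul_apply]
          exact hr _ ih.1 ih.2
      have h3 : ∀ i, τ ((τ ^ i) u) = (τ ^ (i + 1)) u := by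
        intro i
        rw [pow_succ', Equiv.Perm.mul_apply]
      simp only [h3]
      rcases Nat.lt_or_ge n 3 with h4 | h4
      · interval_cases n
        · rw [sum_range_one, zero_add, hnu, pow_zero]
          exact h0 u
        · rw [sum_range_succ, sum_range_one, zero_add, hnu, pow_zero, pow_one,
            hw (τ u) u]
          exact two_eq _
      · have hadj : ∀ i < n, G.Adj ((τ ^ i) u) ((τ ^ (i + 1)) u) := by
          intro i hi
          rw [← h3]
          have hF2 : (τ ^ i) u ∉ F := by
            intro h5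
            rcases hL.start_mem (Or.inr h5) with h6 | h6
            · exact (hmem i).1 h6
            · exact (hmem i).2 h6
          rcases hτ ((τ ^ i) u) with h5 | h5
          · exact absurd h5.1 hF2
          · rcases h5.2.2 with h6 | h6
            · exfalso
              rw [h3] at h6
              have h7 : τ u = u := by
                apply (τ ^ i).injective
                rw [← Equiv.Perm.mul_apply, ← pow_succ]
                exact h6.symm
              have := hinj 1 (by omega) 0 (by omega) (by simpa using h7)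
              omega
            · exact h6
        obtain ⟨k, k1, k2, k3⟩ := exists_cycle_of_fun (w := w) n h4 (fun i => (τ ^ i) u) hadj
          (by simpa using hnu) hinj
        rw [← k3]
        refine hK _ _ _ _ _ _ hL _ k k1 ?_
        intro z hz
        obtain ⟨i, _, rfl⟩ := (k2 z).1 hz
        exact hmem i
  rw [e3, add_zero]

/-- If every edge lies on a pair of paths and all pairs of paths have the same weight, then so do
all allowed permutations. -/
theorem Al.weight (hw : ∀ u v, w u v = w v u) (h0 : ∀ v, w v v = 0) {s : ZMod 2}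
    (hU : Uni G w E F s) (hH : ∀ u v, G.Adj u v → ∃ (a b c d : V) (p : G.Walk a c)
      (q : G.Walk b d), Lk E F p q ∧ u ∈ p.support ∧ v ∈ p.support)
    (hE : E.card = 2) (hF : F.card = 2) {τ : Equiv.Perm V} (hτ : Al G E F τ) :
    Wt F w τ = s := by
  apply hτ.weight_of hw h0 hU _ hE hF
  intro a b c d p q hL u k hk hkd
  cases k with
  | nil => exact absurd hk Walk.not_isCycle_nil
  | @cons _ v _ hadj r =>
    obtain ⟨a', b', c', d', p', q', hL', h5, h6⟩ := hH _ _ hadj
    exact hL.base hw hU hk hkd hL' h5 (Walk.start_mem_support _) h6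
      (by rw [Walk.support_cons]; exact List.mem_cons_of_mem _ (Walk.start_mem_support _)) hadj.ne

end Main

end Pool.Agent.Lib.MP_ba489c_co
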