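import Mathlib

/-!
Signed graphs, circles, and the structures occurring in the characterisation of property (PP).
-/

set_option autoImplicit false

namespace Pool.Agent.Lib.MP_ba489c_co

open Finset

variable {V : Type*}

/-- The sign of a walk: the product of the signs of its edges. -/
def sgn (σ : Sym2 V → ℤˣ) {Γ : SimpleGraph V} {u v : V} (c : Γ.Walk u v) : ℤˣ :=
  (c.edges.map σ).prod

/-- `Γ` is 2-connected: at least three vertices, and connected after the deletion of any vertex. -/
def TwoConnected [Fintype V] (Γ : SimpleGraph V) : Prop :=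
  3 ≤ Fintype.card V ∧ ∀ v : V, (Γ.induce ({v}ᶜ : Set V)).Connected

/-- `Γ` is 3-connected: at least four vertices, and connected after the deletion of any one or two
vertices (the case of one vertex is `u = v`). -/
def ThreeConnected [Fintype V] (Γ : SimpleGraph V) : Prop :=
  4 ≤ Fintype.card V ∧ ∀ u v : V, (Γ.induce ({u, v}ᶜ : Set V)).Connected

/-- Property (PP): every two distinct edges lie in a common positive circle. -/
def PP (Γ : SimpleGraph V) (σ : Sym2 V → ℤˣ) : Prop :=
  ∀ e ∈ Γ.edgeSet, ∀ f ∈ Γ.edgeSet, e ≠ f →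
    ∃ (v : V) (c : Γ.Walk v v), c.IsCycle ∧ e ∈ c.edges ∧ f ∈ c.edges ∧ sgn σ c = 1

/-- Every circle is positive. -/
def Balanced (Γ : SimpleGraph V) (σ : Sym2 V → ℤˣ) : Prop :=
  ∀ (v : V) (c : Γ.Walk v v), c.IsCycle → sgn σ c = 1

/-- Every circle which does not pass through `x` is positive. -/
def BalancedWithout (Γ : SimpleGraph V) (σ : Sym2 V → ℤˣ) (x : V) : Prop :=
  ∀ (v : V) (c : Γ.Walk v v), c.IsCycle → x ∉ c.support → sgn σ c = 1

/-- `H(e,f)`: the spanning subgraph of `Γ` whose edges are the edges `d ≠ e, f` which lie in a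
common circle with `e` and `f`. -/
def hull (Γ : SimpleGraph V) (e f : Sym2 V) : SimpleGraph V :=
  SimpleGraph.fromEdgeSet {d | d ≠ e ∧ d ≠ f ∧
    ∃ (v : V) (c : Γ.Walk v v), c.IsCycle ∧ e ∈ c.edges ∧ f ∈ c.edges ∧ d ∈ c.edges}

/-- `(X, Y)` is a 2-separation of `H` between `e` and `f`: two vertex sets covering `V`, with
exactly two common vertices, `X` containing the ends of `e`, `Y` containing the ends of `f`, and
no edge of `H` joins `X \ Y` to `Y \ X`. -/
structure IsSep [Fintype V] [DecidableEq V] (H : SimpleGraph V) (e f : Sym2 V)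
    (X Y : Finset V) : Prop where
  union : X ∪ Y = univ
  card : (X ∩ Y).card = 2
  left : ∀ x ∈ e, x ∈ X
  right : ∀ y ∈ f, y ∈ Y
  far : ∀ x y, x ∈ X → x ∉ Y → y ∈ Y → y ∉ X → ¬ H.Adj x y

/-- A chain of 2-separations of `H` between `e` and `f`, increasing from `(ends of e, V)` to
`(V, ends of f)`, all pieces `X (i+1) ∩ Y i` (`i < n`) of which are balanced in `H`. -/
structure IsBalancedChain [Fintype V] [DecidableEq V] (H : SimpleGraph V) (σ : Sym2 V → ℤˣ)
    (e f : Sym2 V) (n : ℕ) (X Y : ℕ → Finset V) : Prop where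
  pos : 0 < n
  X_zero : X 0 = e.toFinset
  Y_zero : Y 0 = univ
  X_last : X n = univ
  Y_last : Y n = f.toFinset
  sep : ∀ i ≤ n, IsSep H e f (X i) (Y i)
  mono : ∀ i < n, X i ⊆ X (i + 1) ∧ Y (i + 1) ⊆ Y i
  balanced : ∀ i < n, ∀ (v : V) (c : H.Walk v v), c.IsCycle →
    (∀ z ∈ c.support, z ∈ X (i + 1) ∩ Y i) → sgn σ c = 1

/-- The circle `c` is split by the 2-separation `(X, Y)`: it has a vertex in `X \ Y` and a vertex
in `Y \ X`. -/
def IsSplit [DecidableEq V] {H : SimpleGraph V} {v : V} (c : H.Walk v v) (X Y : Finset V) : Prop :=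
  (∃ z ∈ c.support, z ∉ X) ∧ ∃ z ∈ c.support, z ∉ Y

end Pool.Agent.Lib.MP_ba489c_co
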