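import Pool.Agent.Lib.MP_2ce0dd_pr.Menger
import Pool.Agent.Lib.MP_ba489c_co.Defs
import Pool.Agent.Lib.MP_ba489c_co.Conv

/-!
Connectivity, Menger's theorem for walks, legs.
-/

set_option autoImplicit false
set_option linter.unusedSectionVars false

namespace Pool.Agent.Lib.MP_ba489c_co

open Finset SimpleGraph Pool.Agent.Lib.MP_2ce0dd_pr

variable {V : Type*} [Fintype V] [DecidableEq V] {Γ : SimpleGraph V}

variable (Γ) in
/-- connectivity, in terms of walks avoiding a set -/
def Kc (k : ℕ) : Prop :=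
  ∀ S : Finset V, S.card < k → ∀ a b, a ∉ S → b ∉ S → ∃ p : Γ.Walk a b, ∀ z ∈ p.support, z ∉ S

/-- walks in induced subgraphs -/
lemma walk_of_induce {s : Set V} (h : (Γ.induce s).Connected) {a b : V} (ha : a ∈ s)
    (hb : b ∈ s) : ∃ p : Γ.Walk a b, ∀ z ∈ p.support, z ∈ s := by
  have key : ∀ {x y : s} (_ : (Γ.induce s).Walk x y), ∃ q : Γ.Walk (x : V) (y : V),
      ∀ z ∈ q.support, z ∈ s := by
    intro x y p
    induction p with
    | nil => exact ⟨Walk.nil, fun z hz => by
        rw [Walk.support_nil, List.mem_singleton] at hz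
        rw [hz]
        exact Subtype.coe_prop _⟩
    | @cons x y z' hadj p ih =>
      obtain ⟨q, hq⟩ := ih
      refine ⟨Walk.cons (SimpleGraph.induce_adj.1 hadj) q, ?_⟩
      intro z hz
      rw [Walk.support_cons, List.mem_cons] at hz
      rcases hz with rfl | hz
      · exact x.2
      · exact hq z hz
  obtain ⟨p⟩ := h.preconnected ⟨a, ha⟩ ⟨b, hb⟩
  exact key p

lemma Kc.of {k : ℕ} (hcard : k + 2 ≤ Fintype.card V)
    (h : ∀ S : Finset V, S.card = k → (Γ.induce ((S : Set V)ᶜ)).Connected) : Kc Γ (k + 1) := by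
  intro S hS a b ha hb
  have h1 : S ⊆ univ \ {a, b} := by
    intro x hx
    rw [mem_sdiff, mem_insert, mem_singleton]
    refine ⟨mem_univ _, ?_⟩
    rintro (rfl | rfl)
    · exact ha hx
    · exact hb hx
  have h2 : k ≤ (univ \ {a, b} : Finset V).card := by
    have h3 := le_card_sdiff ({a, b} : Finset V) (univ : Finset V)
    have h4 : ({a, b} : Finset V).card ≤ 2 := card_le_two
    rw [card_univ] at h3
    omega
  obtain ⟨T, hST, hT, hTk⟩ := exists_subsuperset_card_eq h1 (by omega) h2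
  have haT : a ∈ ((T : Set V)ᶜ) := by
    intro h3
    have := hT h3
    simp at this
  have hbT : b ∈ ((T : Set V)ᶜ) := by
    intro h3
    have := hT h3
    simp at this
  obtain ⟨p, hp⟩ := walk_of_induce (h T hTk) haT hbT
  exact ⟨p, fun z hz hzS => hp z hz (hST hzS)⟩

lemma TwoConnected.kc (h : TwoConnected Γ) : Kc Γ 2 := by
  apply Kc.of (k := 1) h.1
  intro S hS
  obtain ⟨v, rfl⟩ := card_eq_one.1 hS
  rw [coe_singleton]
  exact h.2 v

lemma ThreeConnected.kc (h : ThreeConnected Γ) : Kc Γ 3 := by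
  apply Kc.of (k := 2) h.1
  intro S hS
  obtain ⟨u, v, _, rfl⟩ := card_eq_two.1 hS
  rw [coe_pair]
  exact h.2 u v

/-- Menger's theorem -/
theorem Kc.menger {k : ℕ} (h : Kc Γ k) {A B : Finset V} (hA : k ≤ A.card) (hB : k ≤ B.card) :
    ∃ (a b : Fin k → V) (P : ∀ i, Γ.Walk (a i) (b i)),
      (∀ i, a i ∈ A ∧ b i ∈ B ∧ (P i).IsPath) ∧
      ∀ i j, i ≠ j → ∀ z ∈ (P i).support, z ∉ (P j).support := by
  classical
  set D : Finset (V × V) := univ.filter (fun x => Γ.Adj x.1 x.2) with hD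
  have hmem : ∀ a b, (a, b) ∈ D ↔ Γ.Adj a b := by
    intro a b
    simp [hD]
  obtain ⟨P, hP1, hP2⟩ := Pool.Agent.Lib.MP_2ce0dd_pr.menger k _ D rfl A B (by
    intro S hS
    by_contra hlt
    push Not at hlt
    obtain ⟨a, ha, haS⟩ : ∃ a ∈ A, a ∉ S := by
      by_contra hcon
      push Not at hcon
      have := card_le_card (show A ⊆ S from hcon)
      omega
    obtain ⟨b, hb, hbS⟩ : ∃ b ∈ B, b ∉ S := by
      by_contra hcon
      push Not at hcon
      have := card_le_card (show B ⊆ S from hcon)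
      omega
    obtain ⟨p, hp⟩ := h S hlt a b haS hbS
    obtain ⟨v, hv, hvS⟩ := hS p.support (by
      refine ⟨?_, ⟨a, ha, ?_⟩, ⟨b, hb, ?_⟩⟩
      · exact p.isChain_adj_support.imp fun x y hxy => (hmem x y).2 hxy
      · rw [← Walk.cons_tail_support]
        rfl
      · rw [List.getLast?_eq_some_getLast p.support_ne_nil, Walk.getLast_support])
    exact hp v hv hvS)
  have key : ∀ i, ∃ (a b : V) (p : Γ.Walk a b), a ∈ A ∧ b ∈ B ∧ p.IsPath ∧
      ∀ z ∈ p.support, z ∈ P i := by
    intro i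
    obtain ⟨hc, ⟨a, ha, hh⟩, ⟨b, hb, hl⟩⟩ := hP1 i
    have hne : P i ≠ [] := by
      intro h0
      rw [h0] at hh
      simp at hh
    have hc' : (P i).IsChain Γ.Adj := hc.imp fun x y hxy => (hmem x y).1 hxy
    refine ⟨_, _, (Walk.ofSupport (P i) hne hc').bypass, ?_, ?_, Walk.bypass_isPath _, ?_⟩
    · have : (P i).head hne = a := by
        rw [List.head?_eq_some_head hne] at hh
        exact Option.some_injective _ hh
      rw [this]
      exact ha
    · have : (P i).getLast hne = b := by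
        rw [List.getLast?_eq_some_getLast hne] at hl
        exact Option.some_injective _ hl
      rw [this]
      exact hb
    · intro z hz
      have h1 := Walk.support_bypass_subset_support _ hz
      rwa [Walk.support_ofSupport] at h1
  choose a b p h1 h2 h3 h4 using key
  refine ⟨a, b, p, fun i => ⟨h1 i, h2 i, h3 i⟩, ?_⟩
  intro i j hij z hz hz'
  exact hP2 i j hij (h4 i z hz) (h4 j z hz')

/-- Two disjoint paths between two sets of two vertices. -/
lemma Kc.linked (h : Kc Γ 2) {E F : Finset V} (hE : E.card = 2) (hF : F.card = 2) :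
    ∃ (a b c d : V) (p : Γ.Walk a c) (q : Γ.Walk b d), Lk E F p q := by
  obtain ⟨a, b, P, h1, h2⟩ := h.menger hE.ge hF.ge
  refine ⟨a 0, a 1, b 0, b 1, P 0, P 1, (h1 0).2.2, (h1 1).2.2, h2 0 1 (by decide), ?_, ?_⟩
  · symm
    apply eq_of_subset_of_card_le
    · intro x hx
      rw [mem_insert, mem_singleton] at hx
      rcases hx with rfl | rfl
      · exact (h1 0).1
      · exact (h1 1).1
    · rw [hE, card_pair]
      intro h3
      exact h2 0 1 (by decide) _ (Walk.start_mem_support _) (by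
        rw [h3]; exact Walk.start_mem_support _)
  · symm
    apply eq_of_subset_of_card_le
    · intro x hx
      rw [mem_insert, mem_singleton] at hx
      rcases hx with rfl | rfl
      · exact (h1 0).2.1
      · exact (h1 1).2.1
    · rw [hF, card_pair]
      intro h3
      exact h2 0 1 (by decide) _ (Walk.end_mem_support _) (by
        rw [h3]; exact Walk.end_mem_support _)

/-- A path from `S` to `C` contains a leg. -/
lemma exists_leg {S C : V → Prop} {a b : V} {p : Γ.Walk a b} (hp : p.IsPath) (ha : S a)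
    (hb : C b) : ∃ (g x : V) (α : Γ.Walk g x), Leg S C α ∧ ∀ z ∈ α.support, z ∈ p.support := by
  obtain ⟨x, p1, p2, hx, hp12, h1⟩ := first_hit p C ⟨b, Walk.end_mem_support _, hb⟩
  obtain ⟨g, p3, α, hg, hp34, h2⟩ := last_hit p1 S ⟨a, Walk.start_mem_support _, ha⟩
  subst hp34
  subst hp12
  refine ⟨g, x, α, ⟨path_right (path_left hp), hg, hx, h2, ?_⟩, ?_⟩
  · intro z hz hCz
    exact h1 z (mem_append.2 (Or.inr hz)) hCz
  · intro z hz
    exact mem_append.2 (Or.inl (mem_append.2 (Or.inr hz)))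

/-- Three disjoint legs in a 3-connected graph. -/
lemma Kc.legs (h : Kc Γ 3) {S C : Finset V} (hS : 3 ≤ S.card) (hC : 3 ≤ C.card) :
    ∃ (g1 x1 g2 x2 g3 x3 : V) (α1 : Γ.Walk g1 x1) (α2 : Γ.Walk g2 x2) (α3 : Γ.Walk g3 x3),
      Leg (fun z => z ∈ S) (fun z => z ∈ C) α1 ∧ Leg (fun z => z ∈ S) (fun z => z ∈ C) α2 ∧
      Leg (fun z => z ∈ S) (fun z => z ∈ C) α3 ∧ (∀ z ∈ α1.support, z ∉ α2.support) ∧
      (∀ z ∈ α1.support, z ∉ α3.support) ∧ ∀ z ∈ α2.support, z ∉ α3.support := by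
  obtain ⟨a, b, P, h1, h2⟩ := h.menger hS hC
  have key : ∀ i, ∃ (g x : V) (α : Γ.Walk g x), Leg (fun z => z ∈ S) (fun z => z ∈ C) α ∧
      ∀ z ∈ α.support, z ∈ (P i).support := fun i => exists_leg (h1 i).2.2 (h1 i).1 (h1 i).2.1
  choose g x α h3 h4 using key
  refine ⟨g 0, x 0, g 1, x 1, g 2, x 2, α 0, α 1, α 2, h3 0, h3 1, h3 2, ?_, ?_, ?_⟩
  · intro z hz hz'
    exact h2 0 1 (by decide) z (h4 0 z hz) (h4 1 z hz')
  · intro z hz hz'
    exact h2 0 2 (by decide) z (h4 0 z hz) (h4 2 z hz')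
  · intro z hz hz'
    exact h2 1 2 (by decide) z (h4 1 z hz) (h4 2 z hz')

end Pool.Agent.Lib.MP_ba489c_co
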