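import Mathlib

/-!
Pairs of disjoint paths as permutations.  `E` and `F` are two sets of two vertices, `G` is a graph,
`w` a symmetric weight with values in `ZMod 2`.  An allowed permutation sends `F` to `E` and every
other vertex to itself or to a neighbour (outside `E`).
-/

set_option autoImplicit false
set_option linter.unusedSectionVars false

namespace Pool.Agent.Lib.MP_ba489c_co

open Finset

section Walks

variable {V : Type*}

lemma ap_inv (τ : Equiv.Perm V) (v : V) : τ (τ⁻¹ v) = v := Equiv.apply_symm_apply τ v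

lemma inv_ap (τ : Equiv.Perm V) (v : V) : τ⁻¹ (τ v) = v := Equiv.symm_apply_apply τ v

/-- A closed walk of nonzero weight contains a simple one. -/
theorem exists_simple (R : V → V → Prop) (ω : V → V → ZMod 2) :
    ∀ (n : ℕ) (f : ℕ → V), (∀ i < n, R (f i) (f (i + 1))) → f n = f 0 →
      ∑ i ∈ range n, ω (f i) (f (i + 1)) ≠ 0 →
    ∃ (m : ℕ) (g : ℕ → V), 0 < m ∧ (∀ i < m, R (g i) (g (i + 1))) ∧ g m = g 0 ∧
      ∑ i ∈ range m, ω (g i) (g (i + 1)) ≠ 0 ∧ (∀ i < m, ∀ j < m, g i = g j → i = j) ∧
      ∀ i < m, ∃ k < n, g i = f k := by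
  intro n
  induction n using Nat.strong_induction_on with
  | _ n ih =>
  intro f hR hc hs
  by_cases hinj : ∀ i < n, ∀ j < n, f i = f j → i = j
  · refine ⟨n, f, ?_, hR, hc, hs, hinj, fun i hi => ⟨i, hi, rfl⟩⟩
    rcases Nat.eq_zero_or_pos n with h | h
    · subst h
      simp at hs
    · exact h
  · push Not at hinj
    obtain ⟨i, hi, j, hj, hij, hne⟩ := hinj
    -- ordered version
    obtain ⟨i, j, hij', hj', he⟩ : ∃ i j, i < j ∧ j < n ∧ f i = f j := by
      rcases Nat.lt_or_gt_of_ne hne with h | h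
      · exact ⟨i, j, h, hj, hij⟩
      · exact ⟨j, i, h, hi, hij.symm⟩
    obtain ⟨d, hd⟩ : ∃ d, j = i + d := ⟨j - i, by omega⟩
    obtain ⟨r, hr⟩ : ∃ r, n = i + (d + r) := ⟨n - i - d, by omega⟩
    have hd0 : 0 < d := by omega
    have hr0 : 0 < r := by omega
    subst hd
    set g2 : ℕ → V := fun k => if k < i then f k else f (k + d) with hg2
    have g2a : ∀ k, k < i → g2 k = f k := fun k hk => by simp [hg2, hk]
    have g2b : ∀ k, i ≤ k → g2 k = f (k + d) := fun k hk => by
      have : ¬ k < i := by omega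
      simp [hg2, this]
    have g2c : ∀ k, k ≤ i → g2 k = f k := by
      intro k hk
      rcases Nat.lt_or_eq_of_le hk with h | h
      · exact g2a k h
      · rw [h, g2b i le_rfl, ← he]
    have s0 : ∑ k ∈ range n, ω (f k) (f (k + 1)) =
        (∑ k ∈ range d, ω (f (i + k)) (f (i + (k + 1)))) +
          ∑ k ∈ range (i + r), ω (g2 k) (g2 (k + 1)) := by
      rw [hr, sum_range_add, sum_range_add, sum_range_add]
      have e1 : ∑ k ∈ range i, ω (g2 k) (g2 (k + 1)) = ∑ k ∈ range i, ω (f k) (f (k + 1)) := by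
        apply sum_congr rfl
        intro k hk
        rw [mem_range] at hk
        rw [g2a k hk, g2c (k + 1) (by omega)]
      have e2 : ∑ k ∈ range r, ω (g2 (i + k)) (g2 (i + k + 1)) =
          ∑ k ∈ range r, ω (f (i + (d + k))) (f (i + (d + k) + 1)) := by
        apply sum_congr rfl
        intro k _
        rw [g2b _ (by omega), g2b _ (by omega)]
        congr 2 <;> omega
      rw [e1, e2]
      have e3 : ∑ k ∈ range d, ω (f (i + k)) (f (i + (k + 1))) =
          ∑ x ∈ range d, ω (f (i + x)) (f (i + x + 1)) := rfl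
      rw [e3]
      ring
    by_cases h1 : ∑ k ∈ range d, ω (f (i + k)) (f (i + (k + 1))) = 0
    · -- the second part
      rw [s0, h1, zero_add] at hs
      obtain ⟨m, g, hm, hg, hgc, hgs, hgi, hgm⟩ := ih (i + r) (by omega) g2 (fun k hk => by
        rcases Nat.lt_or_ge k i with h | h
        · rw [g2a k h, g2c (k + 1) (by omega)]
          exact hR k (by omega)
        · rw [g2b k h, g2b (k + 1) (by omega)]
          have := hR (k + d) (by omega)
          rwa [show k + 1 + d = k + d + 1 by omega]) (by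
        rw [g2b _ (by omega), g2c 0 (by omega), show i + r + d = n by omega, hc]) hs
      refine ⟨m, g, hm, hg, hgc, hgs, hgi, fun k hk => ?_⟩
      obtain ⟨l, hl, h⟩ := hgm k hk
      rcases Nat.lt_or_ge l i with h2 | h2
      · exact ⟨l, by omega, by rw [h, g2a l h2]⟩
      · exact ⟨l + d, by omega, by rw [h, g2b l h2]⟩
    · obtain ⟨m, g, hm, hg, hgc, hgs, hgi, hgm⟩ := ih d (by omega) (fun k => f (i + k))
        (fun k hk => hR (i + k) (by omega)) (by simpa using he.symm) h1
      refine ⟨m, g, hm, hg, hgc, hgs, hgi, fun k hk => ?_⟩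
      obtain ⟨l, hl, h⟩ := hgm k hk
      exact ⟨i + l, by omega, h⟩

/-- Sums over invariant sets, from sums over the orbits of a permutation. -/
theorem sum_orbits [Finite V] [DecidableEq V] (c : Equiv.Perm V) (h : V → ZMod 2) :
    ∀ S : Finset V, (∀ u ∈ S, c u ∈ S) →
      (∀ u ∈ S, ∀ n, 0 < n → (c ^ n) u = u →
        (∀ i < n, ∀ j < n, (c ^ i) u = (c ^ j) u → i = j) →
          ∑ i ∈ range n, h ((c ^ i) u) = 0) →
      ∑ u ∈ S, h u = 0 := by
  intro S
  induction S using Finset.strongInduction with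
  | _ S ih =>
  intro hc hs
  rcases S.eq_empty_or_nonempty with h0 | ⟨u, hu⟩
  · rw [h0]; simp
  · have hex : ∃ n, 0 < n ∧ (c ^ n) u = u := by
      refine ⟨orderOf c, orderOf_pos c, ?_⟩
      rw [pow_orderOf_eq_one]
      rfl
    classical
    set n := Nat.find hex with hn
    obtain ⟨hn0, hnu⟩ := Nat.find_spec hex
    rw [← hn] at hn0 hnu
    have hmin : ∀ m, 0 < m → m < n → (c ^ m) u ≠ u := fun m hm hmn h' =>
      Nat.find_min hex hmn ⟨hm, h'⟩
    have hlt : ∀ i j, i < j → j < n → (c ^ i) u ≠ (c ^ j) u := by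
      intro i j hij hj he
      apply hmin (j - i) (by omega) (by omega)
      have h1 : c ^ j = c ^ i * c ^ (j - i) := by rw [← pow_add]; congr 1; omega
      rw [h1, Equiv.Perm.mul_apply] at he
      exact ((c ^ i).injective he).symm
    have hinj : ∀ i < n, ∀ j < n, (c ^ i) u = (c ^ j) u → i = j := by
      intro i hi j hj he
      rcases Nat.lt_trichotomy i j with h1 | h1 | h1
      · exact absurd he (hlt i j h1 hj)
      · exact h1
      · exact absurd he.symm (hlt j i h1 hi)
    set O := (range n).image (fun i => (c ^ i) u) with hO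
    have hpow : ∀ i, (c ^ i) u ∈ S := by
      intro i
      induction i with
      | zero => simpa using hu
      | succ i ih' => rw [pow_succ', Equiv.Perm.mul_apply]; exact hc _ ih'
    have hOS : O ⊆ S := by
      intro x hx
      rw [hO, mem_image] at hx
      obtain ⟨i, _, rfl⟩ := hx
      exact hpow i
    have huO : u ∈ O := by
      rw [hO, mem_image]
      exact ⟨0, mem_range.2 hn0, by simp⟩
    have hsum : ∑ x ∈ O, h x = 0 := by
      rw [hO, sum_image (fun i hi j hj he => hinj i (by simpa using hi) j (by simpa using hj) he)]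
      exact hs u hu n hn0 hnu hinj
    have hrest : ∑ x ∈ S \ O, h x = 0 := by
      apply ih (S \ O)
      · exact sdiff_ssubset hOS ⟨u, huO⟩
      · intro v hv
        rw [mem_sdiff] at hv ⊢
        refine ⟨hc v hv.1, fun hcv => hv.2 ?_⟩
        rw [hO, mem_image] at hcv ⊢
        obtain ⟨i, hi, he⟩ := hcv
        rw [mem_range] at hi
        rcases i with _ | i
        · refine ⟨n - 1, mem_range.2 (by omega), ?_⟩
          apply c.injective
          rw [← Equiv.Perm.mul_apply, ← pow_succ', show n - 1 + 1 = n by omega, hnu, ← he]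
          simp
        · refine ⟨i, mem_range.2 (by omega), ?_⟩
          apply c.injective
          rw [← Equiv.Perm.mul_apply, ← pow_succ', he]
      · intro v hv
        exact hs v (mem_sdiff.1 hv).1
    rw [← sum_sdiff hOS, hrest, hsum, add_zero]

end Walks

section Perms

variable {V : Type*} [Fintype V] [DecidableEq V] (G : SimpleGraph V) (E F : Finset V)
  (w : V → V → ZMod 2)

/-- the allowed pairs -/
def Bp (u v : V) : Prop := (u ∈ F ∧ v ∈ E) ∨ (u ∉ F ∧ v ∉ E ∧ (u = v ∨ G.Adj u v))

/-- allowed permutations -/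
def Al (τ : Equiv.Perm V) : Prop := ∀ u, Bp G E F u (τ u)

/-- the weight of a permutation -/
def Wt (τ : Equiv.Perm V) : ZMod 2 := ∑ u ∈ Fᶜ, w u (τ u)

/-- the arcs of the residual digraph -/
def Ra (τ : Equiv.Perm V) (u v : V) : Prop := u ∉ F ∧ v ∉ F ∧ Bp G E F u (τ v)

/-- the weights of the arcs -/
def om (τ : Equiv.Perm V) (u v : V) : ZMod 2 := w u (τ v) + w v (τ v)

variable {G E F w}

lemma Al.mem {τ : Equiv.Perm V} (h : Al G E F τ) (u : V) : τ u ∈ E ↔ u ∈ F := by
  rcases h u with h1 | h1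
  · exact ⟨fun _ => h1.1, fun _ => h1.2⟩
  · exact ⟨fun h2 => absurd h2 h1.2.1, fun h2 => absurd h2 h1.1⟩

lemma two_eq (a : ZMod 2) : a + a = 0 := CharTwo.add_self_eq_zero a

/-- Changing an allowed permutation along a simple cycle of the residual digraph. -/
lemma exists_cycle_change {τ : Equiv.Perm V} (hτ : Al G E F τ) {n : ℕ} {f : ℕ → V}
    (hR : ∀ i < n, Ra G E F τ (f i) (f (i + 1))) (hc : f n = f 0)
    (hinj : ∀ i < n, ∀ j < n, f i = f j → i = j) :
    ∃ τ' : Equiv.Perm V, Al G E F τ' ∧
      Wt F w τ' = Wt F w τ + ∑ i ∈ range n, om w τ (f i) (f (i + 1)) := by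
  set l : List V := (List.range n).map f with hl
  have hlen : l.length = n := by simp [hl]
  have hget : ∀ (i : ℕ) (hi : i < l.length), l[i] = f i := by
    intro i hi
    simp [hl]
  have hnd : l.Nodup := by
    rw [hl]
    apply List.Nodup.map_on _ List.nodup_range
    intro x hx y hy hxy
    rw [List.mem_range] at hx hy
    exact hinj x hx y hy hxy
  set c := l.formPerm with hcdef
  have hcf : ∀ i < n, c (f i) = f (i + 1) := by
    intro i hi
    have h1 := List.formPerm_apply_getElem l hnd i (by rw [hlen]; exact hi)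
    rw [hget] at h1
    rw [hcdef, h1, hget]
    rcases Nat.lt_or_ge (i + 1) n with h2 | h2
    · rw [hlen, Nat.mod_eq_of_lt h2]
    · have h3 : i + 1 = n := by omega
      rw [hlen, h3, Nat.mod_self, hc]
  have hcn : ∀ x, x ∉ l → c x = x := fun x hx => List.formPerm_apply_of_notMem hx
  have hmem : ∀ x, x ∈ l ↔ ∃ i < n, f i = x := by
    intro x
    simp [hl]
  refine ⟨τ * c, ?_, ?_⟩
  · intro u
    rw [Equiv.Perm.mul_apply]
    by_cases hu : u ∈ l
    · obtain ⟨i, hi, rfl⟩ := (hmem u).1 hu
      rw [hcf i hi]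
      exact (hR i hi).2.2
    · rw [hcn u hu]
      exact hτ u
  · unfold Wt
    have hsub : (range n).image f ⊆ Fᶜ := by
      intro x hx
      rw [mem_image] at hx
      obtain ⟨i, hi, rfl⟩ := hx
      rw [mem_compl]
      exact (hR i (mem_range.1 hi)).1
    have hout : ∀ x ∈ Fᶜ \ (range n).image f, w x ((τ * c) x) = w x (τ x) := by
      intro x hx
      rw [mem_sdiff] at hx
      have : x ∉ l := by
        intro h
        apply hx.2
        obtain ⟨i, hi, h⟩ := (hmem x).1 h
        exact mem_image.2 ⟨i, mem_range.2 hi, h⟩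
      rw [Equiv.Perm.mul_apply, hcn x this]
    rw [← sum_sdiff hsub, ← sum_sdiff hsub, sum_congr rfl hout, add_assoc]
    congr 1
    have hi' : Set.InjOn f (range n : Set ℕ) := by
      intro i hi j hj he
      exact hinj i (by simpa using hi) j (by simpa using hj) he
    rw [sum_image hi', sum_image hi', ← sum_add_distrib]
    have e1 : ∀ i ∈ range n, w (f i) (τ (f i)) + om w τ (f i) (f (i + 1)) =
        w (f i) ((τ * c) (f i)) + (w (f (i + 1)) (τ (f (i + 1))) - w (f i) (τ (f i))) := by
      intro i hi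
      rw [Equiv.Perm.mul_apply, hcf i (mem_range.1 hi)]
      unfold om
      linear_combination two_eq (w (f i) (τ (f i)))
    rw [sum_congr rfl e1, sum_add_distrib, sum_range_sub (fun i => w (f i) (τ (f i))), hc, sub_self,
      add_zero]

/-- All closed walks of the residual digraph are even if all allowed permutations have the same
weight. -/
lemma closed_even {τ : Equiv.Perm V} (hτ : Al G E F τ)
    (hW : ∀ τ', Al G E F τ' → Wt F w τ' = Wt F w τ) (n : ℕ) (f : ℕ → V)
    (hR : ∀ i < n, Ra G E F τ (f i) (f (i + 1))) (hc : f n = f 0) :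
    ∑ i ∈ range n, om w τ (f i) (f (i + 1)) = 0 := by
  by_contra hs
  obtain ⟨m, g, hm, hg, hgc, hgs, hgi, -⟩ := exists_simple _ _ n f hR hc hs
  obtain ⟨τ', h1, h2⟩ := exists_cycle_change (w := w) hτ hg hgc hgi
  rw [hW τ' h1] at h2
  apply hgs
  linear_combination -h2

variable (G E F w) in
/-- weighted reachability in the residual digraph -/
inductive WR (τ : Equiv.Perm V) (u : V) : V → ZMod 2 → Prop
  | refl : WR τ u u 0
  | tail {v x : V} {a : ZMod 2} : WR τ u v a → Ra G E F τ v x → WR τ u x (a + om w τ v x)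

lemma WR.trans {τ : Equiv.Perm V} {u v x : V} {a b : ZMod 2} (h1 : WR G E F w τ u v a)
    (h2 : WR G E F w τ v x b) : WR G E F w τ u x (a + b) := by
  induction h2 with
  | refl => rw [add_zero]; exact h1
  | tail _ h ih => rw [← add_assoc]; exact ih.tail h

lemma WR.notMem {τ : Equiv.Perm V} {u v : V} {a : ZMod 2} (h : WR G E F w τ u v a)
    (hu : u ∉ F) : v ∉ F := by
  cases h with
  | refl => exact hu
  | tail _ h => exact h.2.1

lemma WR.toFun {τ : Equiv.Perm V} {u v : V} {a : ZMod 2} (h : WR G E F w τ u v a) :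
    ∃ (n : ℕ) (f : ℕ → V), f 0 = u ∧ f n = v ∧ (∀ i < n, Ra G E F τ (f i) (f (i + 1))) ∧
      ∑ i ∈ range n, om w τ (f i) (f (i + 1)) = a := by
  induction h with
  | refl => exact ⟨0, fun _ => u, rfl, rfl, by simp, by simp⟩
  | @tail v x a _ hR ih =>
    obtain ⟨n, f, h0, hn, hf, hs⟩ := ih
    have e : ∀ i ≤ n, Function.update f (n + 1) x i = f i := by
      intro i hi
      rw [Function.update_of_ne (by omega)]
    refine ⟨n + 1, Function.update f (n + 1) x, ?_, ?_, ?_, ?_⟩
    · rw [e 0 (by omega), h0]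
    · simp
    · intro i hi
      rcases Nat.lt_or_ge i n with h | h
      · rw [e i (by omega), e (i + 1) (by omega)]
        exact hf i h
      · have : i = n := by omega
        subst this
        rw [e i le_rfl, Function.update_self, hn]
        exact hR
    · rw [sum_range_succ, e n le_rfl, Function.update_self, hn]
      congr 1
      rw [← hs]
      apply sum_congr rfl
      intro i hi
      rw [mem_range] at hi
      rw [e i (by omega), e (i + 1) (by omega)]

lemma WR.closed {τ : Equiv.Perm V} (hτ : Al G E F τ)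
    (hW : ∀ τ', Al G E F τ' → Wt F w τ' = Wt F w τ) {u : V} {a : ZMod 2}
    (h : WR G E F w τ u u a) : a = 0 := by
  obtain ⟨n, f, h0, hn, hf, hs⟩ := h.toFun
  rw [← hs]
  exact closed_even hτ hW n f hf (by rw [h0, hn])

variable (G E F w) in
/-- mutual reachability -/
def SC (τ : Equiv.Perm V) (r u : V) : Prop :=
  (∃ a, WR G E F w τ r u a) ∧ ∃ a, WR G E F w τ u r a

/-- Potentials on a strong component. -/
theorem exists_potential {τ : Equiv.Perm V} (hτ : Al G E F τ)
    (hW : ∀ τ', Al G E F τ' → Wt F w τ' = Wt F w τ) (h0 : ∀ v, w v v = 0) {r : V} (hr : r ∉ F) :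
    ∃ χ : V → ZMod 2, ∀ u v, u ∉ F → v ∉ E → G.Adj u v → SC G E F w τ r u →
      SC G E F w τ r (τ⁻¹ v) → w u v = χ u + χ v := by
  classical
  set φ : V → ZMod 2 := fun u => if h : ∃ a, WR G E F w τ r u a then h.choose else 0 with hφ
  have hφ1 : ∀ u, SC G E F w τ r u → WR G E F w τ r u (φ u) := by
    intro u hu
    simp only [hφ, dif_pos hu.1]
    exact hu.1.choose_spec
  have hφ2 : ∀ u x, SC G E F w τ r u → SC G E F w τ r x → Ra G E F τ u x →
      φ x = φ u + om w τ u x := by
    intro u x hu hx hR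
    obtain ⟨b, hb⟩ := hx.2
    have h1 := ((hφ1 x hx).trans hb).closed hτ hW
    have h2 := (((hφ1 u hu).tail hR).trans hb).closed hτ hW
    linear_combination h1 - h2
  refine ⟨fun v => if SC G E F w τ r v then φ v else φ (τ⁻¹ v) + w (τ⁻¹ v) v, ?_⟩
  intro u v hu hv huv hSu hSv
  have hvF : τ⁻¹ v ∉ F := by
    intro h
    rw [← hτ.mem, ap_inv] at h
    exact hv h
  have hRu : Ra G E F τ u (τ⁻¹ v) := ⟨hu, hvF, by
    rw [ap_inv]; exact Or.inr ⟨hu, hv, Or.inr huv⟩⟩
  have e1 := hφ2 u _ hSu hSv hRu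
  unfold om at e1
  rw [ap_inv] at e1
  have e3 : w u v = φ u + (φ (τ⁻¹ v) + w (τ⁻¹ v) v) := by
    linear_combination -e1 - two_eq (φ u) - two_eq (w (τ⁻¹ v) v)
  by_cases hS : SC G E F w τ r v
  · have hvF' : v ∉ F := hS.1.choose_spec.notMem hr
    have hRv : Ra G E F τ v (τ⁻¹ v) := ⟨hvF', hvF, by
      rw [ap_inv]; exact Or.inr ⟨hvF', hv, Or.inl rfl⟩⟩
    have e2 := hφ2 v _ hS hSv hRv
    unfold om at e2
    rw [ap_inv, h0, zero_add] at e2
    simp only [if_pos hSu, if_pos hS]
    linear_combination e3 + e2 + two_eq (w (τ⁻¹ v) v)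
  · simp only [if_pos hSu, if_neg hS]
    exact e3

/-! ### Separations -/

variable (G E F) in
/-- separations of order two between `E` and `F` -/
structure Sp (X Y : Finset V) : Prop where
  union : X ∪ Y = univ
  card : (X ∩ Y).card = 2
  left : E ⊆ X
  right : F ⊆ Y
  far : ∀ x ∈ X, x ∉ Y → ∀ y ∈ Y, y ∉ X → ¬ G.Adj x y

/-- a closed set of the residual digraph gives a separation -/
lemma Sp.of_closed {τ : Equiv.Perm V} (hτ : Al G E F τ) (hE : E.card = 2) {K : Finset V}
    (hK : ∀ u ∈ K, u ∉ F) (hcl : ∀ u ∈ K, ∀ v, Ra G E F τ u v → v ∈ K) :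
    Sp G E F (K.image τ ∪ E) Kᶜ := by
  have hstep : ∀ u ∈ K, ∀ v, v ∉ E → (u = v ∨ G.Adj u v) → v ∈ K.image τ := by
    intro u hu v hv huv
    have hvF : τ⁻¹ v ∉ F := by
      intro h
      rw [← hτ.mem, ap_inv] at h
      exact hv h
    have := hcl u hu (τ⁻¹ v) ⟨hK u hu, hvF, by
      rw [ap_inv]; exact Or.inr ⟨hK u hu, hv, huv⟩⟩
    exact mem_image.2 ⟨_, this, by simp⟩
  have hKX : K ⊆ K.image τ ∪ E := by
    intro u hu
    rw [mem_union]
    by_cases h : u ∈ E
    · exact Or.inr h
    · exact Or.inl (hstep u hu u h (Or.inl rfl))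
  have hdis : Disjoint (K.image τ) E := by
    rw [disjoint_left]
    intro x hx hxE
    obtain ⟨u, hu, rfl⟩ := mem_image.1 hx
    exact hK u hu ((hτ.mem u).1 hxE)
  refine ⟨?_, ?_, subset_union_right, ?_, ?_⟩
  · rw [eq_univ_iff_forall]
    intro x
    rw [mem_union, mem_compl]
    by_cases h : x ∈ K
    · exact Or.inl (hKX h)
    · exact Or.inr h
  · have h1 : (K.image τ ∪ E) ∩ Kᶜ = (K.image τ ∪ E) \ K := by
      rw [sdiff_eq_inter_compl]
    rw [h1, card_sdiff_of_subset hKX, card_union_of_disjoint hdis,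
      card_image_of_injective _ τ.injective, hE]
    omega
  · intro x hx
    rw [mem_compl]
    exact fun h => hK x h hx
  · intro x _ hxY y _ hyX hadj
    rw [mem_compl, not_not] at hxY
    rw [mem_union, not_or] at hyX
    exact hyX.1 (hstep x hxY y hyX.2 (Or.inr hadj))

/-- a separation is respected by allowed permutations -/
lemma Sp.back {τ : Equiv.Perm V} (hτ : Al G E F τ) (hE : E.card = 2) {X Y : Finset V}
    (hS : Sp G E F X Y) {v : V} (h1 : τ v ∈ X) (h2 : v ∈ Y) : v ∈ F := by
  by_contra hvF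
  have hsub : (X \ Y).image τ ⊆ X \ E := by
    intro x hx
    obtain ⟨u, hu, rfl⟩ := mem_image.1 hx
    rw [mem_sdiff] at hu
    have huF : u ∉ F := fun h => hu.2 (hS.right h)
    rcases hτ u with h | h
    · exact absurd h.1 huF
    · rw [mem_sdiff]
      refine ⟨?_, h.2.1⟩
      rcases h.2.2 with h3 | h3
      · rw [← h3]; exact hu.1
      · by_contra h4
        have h5 : τ u ∈ Y := by
          have : τ u ∈ X ∪ Y := by rw [hS.union]; exact mem_univ _
          exact (mem_union.1 this).resolve_left h4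
        exact hS.far u hu.1 hu.2 _ h5 h4 h3
  have hcard : ((X \ Y).image τ).card = (X \ E).card := by
    rw [card_image_of_injective _ τ.injective, card_sdiff_of_subset hS.left, hE]
    have := card_sdiff_add_card_inter X Y
    have h2 := hS.card
    omega
  have heq := eq_of_subset_of_card_le hsub hcard.ge
  have hv : τ v ∈ (X \ Y).image τ := by
    rw [heq, mem_sdiff]
    exact ⟨h1, fun h => hvF ((hτ.mem v).1 h)⟩
  obtain ⟨u, hu, he⟩ := mem_image.1 hv
  rw [τ.injective he, mem_sdiff] at hu
  exact hu.2 h2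

end Perms

end Pool.Agent.Lib.MP_ba489c_co
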