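import Pool.Agent.Lib.MP_ba489c_co.Conn
import Pool.Agent.Lib.MP_ba489c_co.Circ

/-!
Whitney's theorem, balancing vertices, and the 3-connected case.
-/

set_option autoImplicit false
set_option linter.unusedSectionVars false

namespace Pool.Agent.Lib.MP_ba489c_co

open Finset SimpleGraph

variable {V : Type*} [Fintype V] [DecidableEq V] {Γ : SimpleGraph V} {σ : Sym2 V → ℤˣ}

/-- two edges of a 2-connected graph lie on a circle -/
theorem Kc.whitney (h : Kc Γ 2) {e f : Sym2 V} (he : e ∈ Γ.edgeSet) (hf : f ∈ Γ.edgeSet)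
    (hef : e ≠ f) : ∃ (v : V) (c : Γ.Walk v v), c.IsCycle ∧ e ∈ c.edges ∧ f ∈ c.edges := by
  obtain ⟨a, b, c, d, p, q, hL⟩ := h.linked (edge_card he) (edge_card hf)
  obtain ⟨v, k, hk, hperm⟩ := circle_of_lk hL he hf hef
  exact ⟨v, k, hk, hperm.mem_iff.2 (by simp), hperm.mem_iff.2 (by simp)⟩

lemma Kc.mono {k l : ℕ} (h : Kc Γ l) (hkl : k ≤ l) : Kc Γ k :=
  fun S hS a b ha hb => h S (by omega) a b ha hb

/-! ### Balancing vertices -/

/-- closed walks avoiding `x` are even -/
lemma closed_walk_even {x : V} (hx : BalancedWithout Γ σ x) {u : V} (c : Γ.Walk u u)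
    (hc : x ∉ c.support) : ww (ws σ) c = 0 := by
  by_contra hne
  rw [ww_eq_sum] at hne
  obtain ⟨m, g, hm, hg, hgc, hgs, hgi, hgm⟩ := exists_simple Γ.Adj (ws σ) c.length c.getVert
    (fun i hi => c.adj_getVert_succ hi) (by rw [Walk.getVert_length, Walk.getVert_zero]) hne
  have hm3 : 3 ≤ m := by
    by_contra hlt
    have : m = 1 ∨ m = 2 := by omega
    rcases this with rfl | rfl
    · rw [sum_range_one, zero_add, hgc, ws_self] at hgs
      exact hgs rfl
    · rw [sum_range_succ, sum_range_one, zero_add, show 1 + 1 = 2 from rfl, hgc,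
        ws_symm σ (g 1) (g 0)] at hgs
      exact hgs (two_eq _)
  obtain ⟨k, k1, k2, k3⟩ := exists_cycle_of_fun (w := ws σ) m hm3 g hg hgc hgi
  apply hgs
  rw [← k3, ww_ws, eps_eq_zero]
  apply hx _ k k1
  intro hxk
  obtain ⟨i, hi, hix⟩ := (k2 x).1 hxk
  obtain ⟨j, _, hj⟩ := hgm i hi
  apply hc
  rw [← hix, hj]
  exact c.getVert_mem_support j

/-- potentials outside a balancing vertex -/
lemma exists_pot (h2 : Kc Γ 2) {x : V} (hx : BalancedWithout Γ σ x) :
    ∃ χ : V → ZMod 2, ∀ y z, y ≠ x → z ≠ x → Γ.Adj y z → ws σ y z = χ y + χ z := by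
  classical
  by_cases hr : ∃ r : V, r ≠ x
  · obtain ⟨r, hr⟩ := hr
    have hwalk : ∀ y, y ≠ x → ∃ p : Γ.Walk r y, x ∉ p.support := by
      intro y hy
      obtain ⟨p, hp⟩ := h2 {x} (by rw [card_singleton]; omega) r y (by simpa using hr)
        (by simpa using hy)
      exact ⟨p, fun h => hp x h (mem_singleton_self x)⟩
    refine ⟨fun y => if h : ∃ p : Γ.Walk r y, x ∉ p.support then ww (ws σ) h.choose else 0, ?_⟩
    intro y z hy hz hyz
    dsimp only
    rw [dif_pos (hwalk y hy), dif_pos (hwalk z hz)]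
    have h3 := (hwalk y hy).choose_spec
    have h4 := (hwalk z hz).choose_spec
    set p := (hwalk y hy).choose
    set q := (hwalk z hz).choose
    have h5 := closed_walk_even hx (p.append (Walk.cons hyz q.reverse)) (by
      rw [mem_append, Walk.support_cons, List.mem_cons, Walk.support_reverse, List.mem_reverse]
      rintro (h | h | h)
      · exact h3 h
      · exact hy h.symm
      · exact h4 h)
    rw [ww_append, ww_cons, ww_reverse (ws_symm σ)] at h5
    linear_combination h5 - two_eq (ww (ws σ) p) - two_eq (ww (ws σ) q)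
  · push Not at hr
    exact ⟨fun _ => 0, fun y z hy => absurd (hr y) hy⟩

/-- an unbalanced signed graph with a balancing vertex does not have (PP) -/
theorem not_pp_of_balancing (h2 : Kc Γ 2) {x : V} (hx : BalancedWithout Γ σ x)
    (hnb : ¬ Balanced Γ σ) : ¬ PP Γ σ := by
  classical
  obtain ⟨χ, hχ⟩ := exists_pot h2 hx
  -- two neighbours with different values
  obtain ⟨y, z, hxy, hxz, hne⟩ : ∃ y z, Γ.Adj x y ∧ Γ.Adj x z ∧
      ws σ x y + χ y ≠ ws σ x z + χ z := by
    by_contra hcon
    push Not at hcon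
    apply hnb
    intro v c hc
    rw [← eps_eq_zero, ← ww_ws]
    obtain ⟨δ, hδ⟩ : ∃ δ : ZMod 2, ∀ y, Γ.Adj x y → ws σ x y = δ + χ y := by
      by_cases hy : ∃ y, Γ.Adj x y
      · obtain ⟨y, hy⟩ := hy
        refine ⟨ws σ x y + χ y, fun z hz => ?_⟩
        rw [hcon y z hy hz]
        linear_combination -two_eq (χ z)
      · push Not at hy
        exact ⟨0, fun y h => absurd h (hy y)⟩
    have h3 : ww (ws σ) c = (fun y => if y = x then δ else χ y) v +
        (fun y => if y = x then δ else χ y) v := by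
      apply ww_eq_of_potential
      intro d _
      have hadj := d.adj
      by_cases h4 : d.fst = x
      · have h5 : d.snd ≠ x := fun h => hadj.ne (h4.trans h.symm)
        rw [if_pos h4, if_neg h5, h4]
        exact hδ _ (by rw [← h4]; exact hadj)
      · by_cases h5 : d.snd = x
        · rw [if_neg h4, if_pos h5, h5, ws_symm, hδ _ (by rw [← h5]; exact hadj.symm)]
          ring
        · rw [if_neg h4, if_neg h5]
          exact hχ _ _ h4 h5 hadj
    rw [h3, two_eq]
  intro hPP
  have hyz : y ≠ z := by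
    rintro rfl
    exact hne rfl
  have hef : s(x, y) ≠ s(x, z) := by
    intro h
    rw [Sym2.eq_iff] at h
    rcases h with ⟨_, h⟩ | ⟨h, _⟩
    · exact hyz h
    · exact hxz.ne h
  obtain ⟨v, c, hc, hce, hcf, hs⟩ := hPP s(x, y) hxy s(x, z) hxz hef
  obtain ⟨a, b, c', d, p, q, hL, hperm⟩ := lk_of_circle hc hce hcf hef
  have h3 := eps_circle σ hperm
  rw [hs, eps_one, ← ws_adj σ hxy, ← ws_adj σ hxz] at h3
  -- evaluation
  have key : ∀ {a b c' d : V} {p : Γ.Walk a c'} {q : Γ.Walk b d},
      Lk (s(x, y) : Sym2 V).toFinset (s(x, z) : Sym2 V).toFinset p q → a = x →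
      ww (ws σ) p + ww (ws σ) q = χ y + χ z := by
    intro a b c' d p q hL hax
    subst hax
    have he := hL.e_eq
    have hf := hL.f_eq
    have hb : b = y := by
      rw [Sym2.eq_iff] at he
      rcases he with ⟨_, h⟩ | ⟨_, h'⟩
      · exact h.symm
      · exact absurd h'.symm hxy.ne
    have haq : a ∉ q.support := hL.dis a (Walk.start_mem_support _)
    have hcd : c' = a ∧ d = z := by
      rw [Sym2.eq_iff] at hf
      rcases hf with ⟨h, h'⟩ | ⟨h, h'⟩
      · exact ⟨h.symm, h'.symm⟩
      · exfalso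
        rw [h] at haq
        exact haq (Walk.end_mem_support _)
    obtain ⟨rfl, rfl⟩ := hcd
    subst hb
    have hp : ww (ws σ) p = 0 := by
      have : p = Walk.nil := (Walk.isPath_iff_nil.1 hL.pp).eq_nil
      rw [this, ww_nil]
    have hq : ww (ws σ) q = χ b + χ d := by
      apply ww_eq_of_potential
      intro d' hd'
      apply hχ _ _ _ _ d'.adj
      · rintro rfl
        exact haq (q.dart_fst_mem_support_of_mem_darts hd')
      · intro h
        have := q.dart_snd_mem_support_of_mem_darts hd'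
        rw [h] at this
        exact haq this
    rw [hp, hq, zero_add]
  have h4 : ww (ws σ) p + ww (ws σ) q = χ y + χ z := by
    have hxE : x ∈ (s(x, y) : Sym2 V).toFinset := by
      rw [toFinset_mk]
      simp
    rw [hL.hE, mem_insert, mem_singleton] at hxE
    rcases hxE with h | h
    · exact key hL h.symm
    · rw [add_comm]
      exact key hL.symm h.symm
  rw [h4] at h3
  apply hne
  linear_combination -h3 - two_eq (ws σ x z) - two_eq (χ z)

/-! ### The 3-connected case -/

lemma cycle_card {G : SimpleGraph V} {u : V} {k : G.Walk u u} (hk : k.IsCycle) :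
    3 ≤ k.support.toFinset.card := by
  have h1 : k.support.tail.toFinset.card = k.support.tail.length :=
    List.toFinset_card_of_nodup hk.support_nodup
  have h2 : k.support.tail.length = k.length := by
    rw [List.length_tail, Walk.length_support]
    omega
  have h3 := hk.three_le_length
  have h4 : k.support.tail.toFinset ⊆ k.support.toFinset := by
    intro x hx
    rw [List.mem_toFinset] at hx ⊢
    exact List.mem_of_mem_tail hx
  have h5 := card_le_card h4
  omega

/-- legs in `Γ` are legs in `Γ` without `e` and `f` -/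
lemma Leg.toDel {e f : Sym2 V} {S C : V → Prop} {g x : V} {α : Γ.Walk g x} (h : Leg S C α)
    (he : ∀ z ∈ e, S z) (hf : ∀ z ∈ f, S z) :
    ∃ β : (Γ.deleteEdges {e, f}).Walk g x, Leg S C β ∧ β.support = α.support := by
  have key : ∀ e' : Sym2 V, (∀ z ∈ e', S z) → e' ∉ α.edges := by
    intro e' he'
    apply not_mem_edges_of
    intro y z hy hz hye hze
    exact (h.meetS y hy (he' y hye)).trans (h.meetS z hz (he' z hze)).symm
  have hα : ∀ x ∈ α.edges, x ∈ (Γ.deleteEdges {e, f}).edgeSet := by
    intro x hx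
    rw [edgeSet_deleteEdges]
    refine ⟨α.edges_subset_edgeSet hx, ?_⟩
    rintro (rfl | rfl)
    · exact key _ he hx
    · exact key _ hf hx
  refine ⟨α.transfer _ hα, ⟨h.path.transfer hα, h.hg, h.hx, ?_, ?_⟩, Walk.support_transfer _ _⟩
  · rw [Walk.support_transfer]
    exact h.meetS
  · rw [Walk.support_transfer]
    exact h.meetC

lemma Leg.congr {G : SimpleGraph V} {S C S' C' : V → Prop} (hS : ∀ z, S z ↔ S' z)
    (hC : ∀ z, C z ↔ C' z) {g x : V} {α : G.Walk g x} (h : Leg S C α) : Leg S' C' α :=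
  ⟨h.path, (hS _).1 h.hg, (hC _).1 h.hx, fun z hz hs => h.meetS z hz ((hS _).2 hs),
    fun z hz hs => h.meetC z hz ((hC _).2 hs)⟩

/-- in a 3-connected graph, separations of `Γ` without `e`, `f` between `e` and `f` are trivial -/
lemma Sp.trivial (h3 : Kc Γ 3) {e f : Sym2 V} {X Y : Finset V}
    (h : Sp (Γ.deleteEdges {e, f}) e.toFinset f.toFinset X Y) : X = univ ∨ Y = univ := by
  by_contra hcon
  push Not at hcon
  obtain ⟨hX, hY⟩ := hcon
  obtain ⟨x, hx⟩ : ∃ x, x ∉ X := by
    by_contra hh
    push Not at hh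
    exact hX (eq_univ_iff_forall.2 hh)
  obtain ⟨y, hy⟩ : ∃ y, y ∉ Y := by
    by_contra hh
    push Not at hh
    exact hY (eq_univ_iff_forall.2 hh)
  have huniv : ∀ z, z ∈ X ∨ z ∈ Y := by
    intro z
    have : z ∈ X ∪ Y := by rw [h.union]; exact mem_univ z
    exact mem_union.1 this
  obtain ⟨p, hp⟩ := h3 (X ∩ Y) (by rw [h.card]; omega) y x (fun hh => hy (mem_inter.1 hh).2)
    (fun hh => hx (mem_inter.1 hh).1)
  -- the walk stays outside `Y`
  have key : ∀ {y x : V} (p : Γ.Walk y x), y ∉ Y → (∀ z ∈ p.support, z ∉ X ∩ Y) → x ∉ Y := by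
    intro y x p
    induction p with
    | nil => intro h1 _; exact h1
    | @cons u v w hadj p ih =>
      intro h1 h2
      apply ih
      · intro hv
        have hvX : v ∉ X := by
          intro hvX
          have hvs : v ∈ (Walk.cons hadj p).support := by
            rw [Walk.support_cons]
            exact List.mem_cons_of_mem _ (Walk.start_mem_support _)
          exact h2 v hvs (mem_inter.2 ⟨hvX, hv⟩)
        have huX := (huniv u).resolve_right h1
        apply h.far u huX h1 v hv hvX
        rw [deleteEdges_adj]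
        refine ⟨hadj, ?_⟩
        rintro (he | hf)
        · apply hvX
          apply h.left
          rw [Sym2.mem_toFinset, ← he]
          exact Sym2.mem_mk_right _ _
        · apply h1
          apply h.right
          rw [Sym2.mem_toFinset, ← hf]
          exact Sym2.mem_mk_left _ _
      · intro z hz
        exact h2 z (by rw [Walk.support_cons]; exact List.mem_cons_of_mem _ hz)
  have := key p hy hp
  exact (huniv x).elim hx this

/-- the potential in the 3-connected case -/
lemma exists_pot3 (h3 : Kc Γ 3) {e f : Sym2 V} (he : e ∈ Γ.edgeSet)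
    (hf : f ∈ Γ.edgeSet) (hef : e ≠ f) {s : ℤˣ}
    (hs : ∀ (v : V) (c : Γ.Walk v v), c.IsCycle → e ∈ c.edges → f ∈ c.edges → sgn σ c = s) :
    ∃ χ : V → ZMod 2, ∀ x y, (Γ.deleteEdges {e, f}).Adj x y → ¬ (x ∈ e ∧ x ∈ f) →
      ¬ (y ∈ e ∧ y ∈ f) → ws σ x y = χ x + χ y := by
  classical
  set D := Γ.deleteEdges {e, f} with hD
  have hDle : D ≤ Γ := deleteEdges_le _
  have hE := edge_card he
  have hF := edge_card hf
  have hEF : e.toFinset ≠ f.toFinset := by
    intro h
    apply hef
    induction e with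
    | h a b =>
      have hab : a ≠ b := Γ.ne_of_adj he
      have h1 : a ∈ f := by
        rw [← Sym2.mem_toFinset, ← h, toFinset_mk]
        simp
      have h2 : b ∈ f := by
        rw [← Sym2.mem_toFinset, ← h, toFinset_mk]
        simp
      exact ((Sym2.mem_and_mem_iff hab).1 ⟨h1, h2⟩).symm
  have hU : Uni D (ws σ) e.toFinset f.toFinset (eps s + eps (σ e) + eps (σ f)) := by
    intro a b c d p q hL
    obtain ⟨p', q', hL', hp', hq'⟩ := hL.ofLe hDle
    obtain ⟨v, k, hk, hperm⟩ := circle_of_lk hL' he hf hef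
    have h1 := hs v k hk (hperm.mem_iff.2 (by simp)) (hperm.mem_iff.2 (by simp))
    rw [hp', hq'] at hperm
    have h2 := eps_circle σ hperm
    rw [h1] at h2
    linear_combination -h2 - two_eq (eps (σ e)) - two_eq (eps (σ f))
  have hK : ∀ (a b c d : V) (p : D.Walk a c) (q : D.Walk b d), Lk e.toFinset f.toFinset p q →
      ∀ (u : V) (k : D.Walk u u), k.IsCycle →
      (∀ z ∈ k.support, z ∉ p.support ∧ z ∉ q.support) → ww (ws σ) k = 0 := by
    intro a b c d p q hL u k hk hkd
    set S := p.support.toFinset ∪ q.support.toFinset with hS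
    have hSmem : ∀ z, z ∈ S ↔ z ∈ p.support ∨ z ∈ q.support := by
      intro z
      rw [hS, mem_union, List.mem_toFinset, List.mem_toFinset]
    have hES : e.toFinset ∪ f.toFinset ⊆ S := by
      intro z hz
      rw [hSmem]
      exact hL.start_mem (mem_union.1 hz)
    have hS3 : 3 ≤ S.card := by
      refine le_trans ?_ (card_le_card hES)
      by_contra hlt
      push Not at hlt
      apply hEF
      have h1 : e.toFinset = e.toFinset ∪ f.toFinset :=
        eq_of_subset_of_card_le subset_union_left (by omega)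
      have h2 : f.toFinset = e.toFinset ∪ f.toFinset :=
        eq_of_subset_of_card_le subset_union_right (by omega)
      rw [h1, ← h2]
    obtain ⟨g1, x1, g2, x2, g3, x3, α1, α2, α3, l1, l2, l3, h12, h13, h23⟩ :=
      h3.legs hS3 (cycle_card hk)
    have hSe : ∀ z ∈ e, z ∈ S := fun z hz =>
      hES (mem_union_left _ (Sym2.mem_toFinset.2 hz))
    have hSf : ∀ z ∈ f, z ∈ S := fun z hz =>
      hES (mem_union_right _ (Sym2.mem_toFinset.2 hz))
    obtain ⟨β1, m1, s1⟩ := l1.toDel hSe hSf
    obtain ⟨β2, m2, s2⟩ := l2.toDel hSe hSf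
    obtain ⟨β3, m3, s3⟩ := l3.toDel hSe hSf
    have hCmem : ∀ z, z ∈ k.support.toFinset ↔ z ∈ k.support := fun z => List.mem_toFinset
    exact hL.three_legs (ws_symm σ) hU hk hkd (m1.congr hSmem hCmem) (m2.congr hSmem hCmem)
      (m3.congr hSmem hCmem) (by rw [s1, s2]; exact h12) (by rw [s1, s3]; exact h13)
      (by rw [s2, s3]; exact h23)
  -- an allowed permutation
  obtain ⟨a, b, c, d, p, q, hL⟩ := (h3.mono (by omega : 2 ≤ 3)).linked hE hF
  have hLD : ∃ (p' : D.Walk a c) (q' : D.Walk b d), Lk e.toFinset f.toFinset p' q' := by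
    have hp : ∀ x ∈ p.edges, x ∈ D.edgeSet := by
      intro x hx
      rw [hD, edgeSet_deleteEdges]
      refine ⟨p.edges_subset_edgeSet hx, ?_⟩
      rintro (rfl | rfl)
      · exact hL.notMem_edges.1 hx
      · exact hL.notMem_edges.2 hx
    have hq : ∀ x ∈ q.edges, x ∈ D.edgeSet := by
      intro x hx
      rw [hD, edgeSet_deleteEdges]
      refine ⟨q.edges_subset_edgeSet hx, ?_⟩
      rintro (rfl | rfl)
      · exact hL.symm.notMem_edges.1 hx
      · exact hL.symm.notMem_edges.2 hx
    refine ⟨p.transfer _ hp, q.transfer _ hq, ⟨hL.pp.transfer hp, hL.qp.transfer hq, ?_, hL.hE,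
      hL.hF⟩⟩
    intro z hz
    rw [Walk.support_transfer] at hz ⊢
    exact hL.dis z hz
  obtain ⟨p', q', hL'⟩ := hLD
  obtain ⟨τ, hτ, -, -, -⟩ := hL'.toPerm (ws_self σ)
  have hWall : ∀ τ', Al D e.toFinset f.toFinset τ' → Wt f.toFinset (ws σ) τ' =
      Wt f.toFinset (ws σ) τ := by
    intro τ' hτ'
    rw [hτ'.weight_of (ws_symm σ) (ws_self σ) hU hK hE hF,
      hτ.weight_of (ws_symm σ) (ws_self σ) hU hK hE hF]
  -- everything is reachable
  have hreach : ∀ u v, u ∉ f.toFinset → v ∉ f.toFinset →
      ∃ t, WR D e.toFinset f.toFinset (ws σ) τ u v t := by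
    intro u v hu hv
    set K : Finset V := univ.filter (fun x => ∃ t, WR D e.toFinset f.toFinset (ws σ) τ u x t)
      with hKdef
    have hKu : u ∈ K := mem_filter.2 ⟨mem_univ _, 0, WR.refl⟩
    have hsp := Sp.of_closed hτ hE (K := K) (by
      intro x hx
      obtain ⟨-, t, ht⟩ := mem_filter.1 hx
      exact ht.notMem hu) (by
      intro x hx y hR
      obtain ⟨-, t, ht⟩ := mem_filter.1 hx
      exact mem_filter.2 ⟨mem_univ _, _, ht.tail hR⟩)
    rcases hsp.trivial h3 with h | h
    · have h4 : f.toFinset = Kᶜ := by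
        apply eq_of_subset_of_card_le hsp.right
        have h5 := hsp.card
        rw [h, univ_inter] at h5
        rw [h5, hF]
      have h6 : v ∈ K := by
        by_contra hvK
        apply hv
        rw [h4, mem_compl]
        exact hvK
      exact (mem_filter.1 h6).2
    · exfalso
      have : u ∈ Kᶜ := by rw [h]; exact mem_univ u
      rw [mem_compl] at this
      exact this hKu
  -- the potential
  have hr : ∃ r, r ∉ f.toFinset := by
    by_contra hcon
    push Not at hcon
    apply hEF
    apply eq_of_subset_of_card_le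
    · intro x _
      exact hcon x
    · rw [hE, hF]
  obtain ⟨r, hr⟩ := hr
  obtain ⟨χ, hχ⟩ := exists_potential hτ hWall (ws_self σ) hr
  have hSC : ∀ x, x ∉ f.toFinset → SC D e.toFinset f.toFinset (ws σ) τ r x := fun x hx =>
    ⟨hreach r x hr hx, hreach x r hx hr⟩
  have hgood : ∀ x y, D.Adj x y → x ∉ f.toFinset → y ∉ e.toFinset → ws σ x y = χ x + χ y := by
    intro x y hxy hx hy
    apply hχ x y hx hy hxy (hSC x hx)
    apply hSC
    rw [← hτ.mem, ap_inv]
    exact hy
  refine ⟨χ, ?_⟩
  intro x y hxy hx hy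
  have hxy' := hxy
  rw [hD, deleteEdges_adj] at hxy'
  obtain ⟨hadj, hnot⟩ := hxy'
  have hne := hadj.ne
  simp only [Set.mem_insert_iff, Set.mem_singleton_iff, not_or] at hnot
  by_cases h1 : x ∉ f.toFinset ∧ y ∉ e.toFinset
  · exact hgood x y hxy h1.1 h1.2
  · by_cases h2 : y ∉ f.toFinset ∧ x ∉ e.toFinset
    · rw [ws_symm, hgood y x hxy.symm h2.1 h2.2, add_comm]
    · exfalso
      rw [Sym2.mem_toFinset, Sym2.mem_toFinset] at h1 h2
      by_cases hxf : x ∈ f
      · have hxe : x ∉ e := fun h => hx ⟨h, hxf⟩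
        have hyf : y ∈ f := by
          by_contra h
          exact h2 ⟨h, hxe⟩
        exact hnot.2 ((Sym2.mem_and_mem_iff hne).1 ⟨hxf, hyf⟩).symm
      · have hye : y ∈ e := by
          by_contra h
          exact h1 ⟨hxf, h⟩
        have hyf : y ∉ f := fun h => hy ⟨hye, h⟩
        have hxe : x ∈ e := by
          by_contra h
          exact h2 ⟨hyf, h⟩
        exact hnot.1 ((Sym2.mem_and_mem_iff hne).1 ⟨hxe, hye⟩).symm

/-- In a 3-connected signed graph, if all circles through two edges are negative then there is a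
balancing vertex. -/
theorem exists_balancing (h3 : Kc Γ 3) {e f : Sym2 V} (he : e ∈ Γ.edgeSet)
    (hf : f ∈ Γ.edgeSet) (hef : e ≠ f)
    (hs : ∀ (v : V) (c : Γ.Walk v v), c.IsCycle → e ∈ c.edges → f ∈ c.edges → sgn σ c = -1) :
    ∃ x, BalancedWithout Γ σ x := by
  classical
  obtain ⟨χ, hχ⟩ := exists_pot3 h3 he hf hef hs
  by_cases hcom : ∃ x, x ∈ e ∧ x ∈ f
  · obtain ⟨x, hxe, hxf⟩ := hcom
    have huniq : ∀ y, y ∈ e → y ∈ f → y = x := by
      intro y hye hyf
      by_contra hne
      apply hef
      rw [(Sym2.mem_and_mem_iff hne).1 ⟨hye, hxe⟩, (Sym2.mem_and_mem_iff hne).1 ⟨hyf, hxf⟩]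
    refine ⟨x, ?_⟩
    intro v c hc hxc
    rw [← eps_eq_zero, ← ww_ws]
    have h4 : ww (ws σ) c = χ v + χ v := by
      apply ww_eq_of_potential
      intro d hd
      have h1 : d.fst ∈ c.support := c.dart_fst_mem_support_of_mem_darts hd
      have h2 : d.snd ∈ c.support := c.dart_snd_mem_support_of_mem_darts hd
      apply hχ
      · rw [deleteEdges_adj]
        refine ⟨d.adj, ?_⟩
        have hd' : s(d.fst, d.snd) ∈ c.edges := by
          unfold Walk.edges
          exact List.mem_map.2 ⟨d, hd, rfl⟩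
        rintro (h | h)
        · rw [← h] at hxe
          rw [Sym2.mem_iff] at hxe
          rcases hxe with h5 | h5
          · exact hxc (h5 ▸ h1)
          · exact hxc (h5 ▸ h2)
        · rw [← h] at hxf
          rw [Sym2.mem_iff] at hxf
          rcases hxf with h5 | h5
          · exact hxc (h5 ▸ h1)
          · exact hxc (h5 ▸ h2)
      · rintro ⟨h5, h6⟩
        exact hxc (huniq _ h5 h6 ▸ h1)
      · rintro ⟨h5, h6⟩
        exact hxc (huniq _ h5 h6 ▸ h2)
    rw [h4, two_eq]
  · push Not at hcom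
    -- all edges but `e` and `f` are even
    have hχ' : ∀ x y, Γ.Adj x y → s(x, y) ≠ e → s(x, y) ≠ f → ws σ x y = χ x + χ y := by
      intro x y hxy h1 h2
      apply hχ
      · rw [deleteEdges_adj]
        refine ⟨hxy, ?_⟩
        rintro (h | h)
        · exact h1 h
        · exact h2 h
      · exact fun h => hcom x h.1 h.2
      · exact fun h => hcom y h.1 h.2
    obtain ⟨v, c, hc, hce, hcf⟩ := (h3.mono (by omega : 2 ≤ 3)).whitney he hf hef
    have hneg := hs v c hc hce hcf
    obtain ⟨a, b, c', d, p, q, hL, hperm⟩ := lk_of_circle hc hce hcf hef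
    have h4 := eps_circle σ hperm
    have hp : ww (ws σ) p = χ a + χ c' := by
      apply ww_eq_of_potential
      intro d' hd'
      have hd'' : s(d'.fst, d'.snd) ∈ p.edges := by
        unfold Walk.edges
        exact List.mem_map.2 ⟨d', hd', rfl⟩
      apply hχ' _ _ d'.adj
      · intro h; rw [h] at hd''; exact hL.notMem_edges.1 hd''
      · intro h; rw [h] at hd''; exact hL.notMem_edges.2 hd''
    have hq : ww (ws σ) q = χ b + χ d := by
      apply ww_eq_of_potential
      intro d' hd'
      have hd'' : s(d'.fst, d'.snd) ∈ q.edges := by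
        unfold Walk.edges
        exact List.mem_map.2 ⟨d', hd', rfl⟩
      apply hχ' _ _ d'.adj
      · intro h; rw [h] at hd''; exact hL.symm.notMem_edges.1 hd''
      · intro h; rw [h] at hd''; exact hL.symm.notMem_edges.2 hd''
    rw [hneg, eps_neg_one, hp, hq] at h4
    have he' := hL.e_eq
    have hf' := hL.f_eq
    have hab : Γ.Adj a b := by rw [he'] at he; exact he
    have hcd : Γ.Adj c' d := by rw [hf'] at hf; exact hf
    have h5 : (eps (σ e) + χ a + χ b) + (eps (σ f) + χ c' + χ d) = 1 := by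
      linear_combination -h4
    -- if one of the two edges is even, an end of the other one is balancing
    have key : ∀ (e₁ e₂ : Sym2 V) (x : V), (e₁ = e ∧ e₂ = f) ∨ (e₁ = f ∧ e₂ = e) → x ∈ e₁ →
        (∀ y z, Γ.Adj y z → s(y, z) = e₂ → ws σ y z = χ y + χ z) → BalancedWithout Γ σ x := by
      intro e₁ e₂ x h12 hx1 h6 v c hc hxc
      rw [← eps_eq_zero, ← ww_ws]
      have h7 : ww (ws σ) c = χ v + χ v := by
        apply ww_eq_of_potential
        intro d' hd'
        have h1 : d'.fst ∈ c.support := c.dart_fst_mem_support_of_mem_darts hd'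
        have h2 : d'.snd ∈ c.support := c.dart_snd_mem_support_of_mem_darts hd'
        by_cases h8 : s(d'.fst, d'.snd) = e₂
        · exact h6 _ _ d'.adj h8
        · have h9 : s(d'.fst, d'.snd) ≠ e₁ := by
            intro h
            rw [← h, Sym2.mem_iff] at hx1
            rcases hx1 with h5 | h5
            · exact hxc (h5 ▸ h1)
            · exact hxc (h5 ▸ h2)
          rcases h12 with ⟨rfl, rfl⟩ | ⟨rfl, rfl⟩
          · exact hχ' _ _ d'.adj h9 h8
          · exact hχ' _ _ d'.adj h8 h9
      rw [h7, two_eq]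
    have heven : ∀ {x y : V} {e₂ : Sym2 V}, Γ.Adj x y → e₂ = s(x, y) →
        eps (σ e₂) + χ x + χ y = 0 → ∀ y' z, Γ.Adj y' z → s(y', z) = e₂ →
        ws σ y' z = χ y' + χ z := by
      intro x y e₂ hxy he₂ h6 y' z hyz h7
      rw [ws_adj σ hyz, h7]
      rw [he₂, Sym2.eq_iff] at h7
      rcases h7 with ⟨rfl, rfl⟩ | ⟨rfl, rfl⟩
      · linear_combination h6 - two_eq (χ y') - two_eq (χ z)
      · linear_combination h6 - two_eq (χ y') - two_eq (χ z)
    have hzero : eps (σ e) + χ a + χ b = 0 ∨ eps (σ f) + χ c' + χ d = 0 := by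
      generalize eps (σ e) + χ a + χ b = s1 at h5 ⊢
      generalize eps (σ f) + χ c' + χ d = s2 at h5 ⊢
      revert s1 s2
      decide
    rcases hzero with h6 | h6
    · exact ⟨c', key f e c' (Or.inr ⟨rfl, rfl⟩) (by rw [hf']; exact Sym2.mem_mk_left _ _)
        (heven hab he' h6)⟩
    · exact ⟨a, key e f a (Or.inl ⟨rfl, rfl⟩) (by rw [he']; exact Sym2.mem_mk_left _ _)
        (heven hcd hf' h6)⟩

/-- The characterisation of (PP) for 3-connected signed graphs. -/
theorem pp_iff_three (h3 : ThreeConnected Γ) :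
    PP Γ σ ↔ Balanced Γ σ ∨ ¬ ∃ x, BalancedWithout Γ σ x := by
  have hk := h3.kc
  have hk2 := hk.mono (by omega : 2 ≤ 3)
  constructor
  · intro hPP
    by_contra hcon
    push Not at hcon
    obtain ⟨hnb, x, hx⟩ := hcon
    exact not_pp_of_balancing hk2 hx hnb hPP
  · rintro (hB | hx)
    · intro e he f hf hef
      obtain ⟨v, c, hc, hce, hcf⟩ := hk2.whitney he hf hef
      exact ⟨v, c, hc, hce, hcf, hB v c hc⟩
    · intro e he f hf hef
      by_contra hcon
      push Not at hcon
      apply hx
      apply exists_balancing hk he hf hef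
      intro v c hc hce hcf
      rcases Int.units_eq_one_or (sgn σ c) with h | h
      · exact absurd h (hcon v c hc hce hcf)
      · exact h

end Pool.Agent.Lib.MP_ba489c_co
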