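import Pool.Agent.Lib.MP_ba489c_co.Perm

/-!
Weights of walks, pairs of disjoint paths, rerouting through a circle.
-/

set_option autoImplicit false
set_option linter.unusedSectionVars false

namespace Pool.Agent.Lib.MP_ba489c_co

open Finset SimpleGraph

variable {V : Type*} {G : SimpleGraph V}

/-- weight of a walk -/
def ww (w : V → V → ZMod 2) {u v : V} (p : G.Walk u v) : ZMod 2 :=
  (p.darts.map fun d => w d.fst d.snd).sum

variable {w : V → V → ZMod 2}

@[simp] lemma ww_nil {u : V} : ww w (Walk.nil : G.Walk u u) = 0 := rfl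

@[simp] lemma ww_cons {u v x : V} (h : G.Adj u v) (p : G.Walk v x) :
    ww w (Walk.cons h p) = w u v + ww w p := rfl

lemma ww_append {u v x : V} (p : G.Walk u v) (q : G.Walk v x) :
    ww w (p.append q) = ww w p + ww w q := by
  unfold ww
  rw [Walk.darts_append, List.map_append, List.sum_append]

lemma ww_concat {u v x : V} (p : G.Walk u v) (h : G.Adj v x) :
    ww w (p.concat h) = ww w p + w v x := by
  rw [Walk.concat_eq_append, ww_append, ww_cons, ww_nil, add_zero]

lemma ww_reverse (hw : ∀ u v, w u v = w v u) {u v : V} (p : G.Walk u v) :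
    ww w p.reverse = ww w p := by
  induction p with
  | nil => rfl
  | cons h p ih =>
    rw [Walk.reverse_cons, ww_append, ih, ww_cons, ww_cons, ww_nil, hw]
    ring

lemma ww_eq_sum {u v : V} (p : G.Walk u v) :
    ww w p = ∑ i ∈ range p.length, w (p.getVert i) (p.getVert (i + 1)) := by
  induction p with
  | nil => simp
  | cons h p ih =>
    rw [ww_cons, ih, Walk.length_cons, sum_range_succ']
    rw [add_comm]
    congr 1
    rw [Walk.getVert_zero, Walk.getVert_cons_succ, Walk.getVert_zero]

lemma ww_rotate [DecidableEq V] {u x : V} (c : G.Walk u u) (h : x ∈ c.support) :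
    ww w (c.rotate x h) = ww w c := by
  unfold ww
  exact ((Walk.rotate_darts c x h).perm.map _).sum_eq

/-- concatenation of paths -/
lemma path_append {u v x : V} {p : G.Walk u v} {q : G.Walk v x} (hp : p.IsPath) (hq : q.IsPath)
    (h : ∀ z ∈ p.support, z ∈ q.support → z = v) : (p.append q).IsPath := by
  rw [Walk.isPath_def, Walk.support_append, List.nodup_append]
  have hq' := hq.support_nodup
  rw [← Walk.cons_tail_support] at hq'
  refine ⟨hp.support_nodup, hq'.of_cons, ?_⟩
  rintro a ha b hb rfl
  have h1 := h a ha (by rw [← Walk.cons_tail_support]; exact List.mem_cons_of_mem _ hb)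
  rw [h1] at hb
  exact (List.nodup_cons.1 hq').1 hb

/-- common vertices of the two parts of a path -/
lemma eq_of_append {u v x : V} {p : G.Walk u v} {q : G.Walk v x} (h : (p.append q).IsPath)
    {z : V} (h1 : z ∈ p.support) (h2 : z ∈ q.support) : z = v := by
  rw [Walk.isPath_def, Walk.support_append, List.nodup_append] at h
  rw [← Walk.cons_tail_support] at h2
  rcases List.mem_cons.1 h2 with h3 | h3
  · exact h3
  · exact absurd rfl (h.2.2 z h1 z h3)

lemma path_left {u v x : V} {p : G.Walk u v} {q : G.Walk v x} (h : (p.append q).IsPath) :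
    p.IsPath := h.of_append_left

lemma path_right {u v x : V} {p : G.Walk u v} {q : G.Walk v x} (h : (p.append q).IsPath) :
    q.IsPath := h.of_append_right

lemma mem_append {u v x z : V} {p : G.Walk u v} {q : G.Walk v x} :
    z ∈ (p.append q).support ↔ z ∈ p.support ∨ z ∈ q.support := by
  rw [Walk.mem_support_append_iff]

/-- the first vertex with a property -/
lemma first_hit {u v : V} (p : G.Walk u v) (P : V → Prop) (h : ∃ z ∈ p.support, P z) :
    ∃ (x : V) (p1 : G.Walk u x) (p2 : G.Walk x v), P x ∧ p = p1.append p2 ∧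
      ∀ z ∈ p1.support, P z → z = x := by
  induction p with
  | @nil u =>
    obtain ⟨z, hz, hP⟩ := h
    rw [Walk.support_nil, List.mem_singleton] at hz
    subst hz
    exact ⟨z, Walk.nil, Walk.nil, hP, rfl, fun y hy _ => by simpa using hy⟩
  | @cons u y v hadj p ih =>
    by_cases hu : P u
    · exact ⟨u, Walk.nil, Walk.cons hadj p, hu, rfl, fun z hz _ => by simpa using hz⟩
    · have h' : ∃ z ∈ p.support, P z := by
        obtain ⟨z, hz, hP⟩ := h
        rw [Walk.support_cons, List.mem_cons] at hz
        rcases hz with rfl | hz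
        · exact absurd hP hu
        · exact ⟨z, hz, hP⟩
      obtain ⟨x, p1, p2, h1, h2, h3⟩ := ih h'
      refine ⟨x, Walk.cons hadj p1, p2, h1, by rw [Walk.cons_append, ← h2], ?_⟩
      intro z hz hP
      rw [Walk.support_cons, List.mem_cons] at hz
      rcases hz with rfl | hz
      · exact absurd hP hu
      · exact h3 z hz hP

/-- the last vertex with a property -/
lemma last_hit {u v : V} (p : G.Walk u v) (P : V → Prop) (h : ∃ z ∈ p.support, P z) :
    ∃ (x : V) (p1 : G.Walk u x) (p2 : G.Walk x v), P x ∧ p = p1.append p2 ∧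
      ∀ z ∈ p2.support, P z → z = x := by
  obtain ⟨x, q1, q2, h1, h2, h3⟩ := first_hit p.reverse P (by simpa using h)
  refine ⟨x, q2.reverse, q1.reverse, h1, ?_, ?_⟩
  · rw [← Walk.reverse_append, ← h2, Walk.reverse_reverse]
  · intro z hz hP
    exact h3 z (by simpa using hz) hP

/-- The two arcs of a circle. -/
lemma arcs (hw : ∀ u v, w u v = w v u) {u x y : V} {c : G.Walk u u} (hc : c.IsCycle)
    (hx : x ∈ c.support) (hy : y ∈ c.support) (hxy : x ≠ y) :
    ∃ A1 A2 : G.Walk x y, A1.IsPath ∧ A2.IsPath ∧ (∀ z ∈ A1.support, z ∈ c.support) ∧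
      (∀ z ∈ A2.support, z ∈ c.support) ∧ ww w A1 + ww w A2 = ww w c := by
  classical
  set c' := c.rotate x hx with hc'
  have h1 : c'.IsCycle := (Walk.isCycle_rotate hx).2 hc
  have hy' : y ∈ c'.support := by
    rw [hc', Walk.mem_support_rotate_iff]
    exact hy
  have hsub : ∀ z ∈ c'.support, z ∈ c.support := by
    intro z hz
    rwa [hc', Walk.mem_support_rotate_iff] at hz
  have hspec := Walk.take_spec c' hy'
  have hd : (c'.dropUntil y hy').IsPath := by
    have h2 : ((c'.takeUntil y hy').append (c'.dropUntil y hy')).IsCycle := by rw [hspec]; exact h1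
    apply h2.isPath_of_append_right
    intro hn
    exact hxy hn.eq
  have ht : (c'.takeUntil y hy').IsPath := h1.isPath_takeUntil hy'
  refine ⟨c'.takeUntil y hy', (c'.dropUntil y hy').reverse, ht, hd.reverse, ?_, ?_, ?_⟩
  · intro z hz
    exact hsub z (Walk.support_takeUntil_subset_support _ _ hz)
  · intro z hz
    rw [Walk.support_reverse, List.mem_reverse] at hz
    exact hsub z (Walk.support_dropUntil_subset_support _ _ hz)
  · rw [ww_reverse hw, ← ww_append, hspec, hc', ww_rotate]

/-! ### Pairs of paths -/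

variable (E F : Finset V) [DecidableEq V]

/-- two disjoint paths from `E` to `F` covering `E` and `F` -/
structure Lk {a b c d : V} (p : G.Walk a c) (q : G.Walk b d) : Prop where
  pp : p.IsPath
  qp : q.IsPath
  dis : ∀ v ∈ p.support, v ∉ q.support
  hE : E = {a, b}
  hF : F = {c, d}

variable {E F}

lemma Lk.symm {a b c d : V} {p : G.Walk a c} {q : G.Walk b d} (h : Lk E F p q) : Lk E F q p where
  pp := h.qp
  qp := h.pp
  dis := fun v hv hp => h.dis v hp hv
  hE := by rw [h.hE, pair_comm]
  hF := by rw [h.hF, pair_comm]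

variable (G E F w) in
/-- all pairs of paths have the same weight -/
def Uni (s : ZMod 2) : Prop :=
  ∀ (a b c d : V) (p : G.Walk a c) (q : G.Walk b d), Lk E F p q → ww w p + ww w q = s

/-- rerouting a part of the first path -/
lemma Lk.swap {s : ZMod 2} (hU : Uni G w E F s) {a b c d g h : V} {p1 : G.Walk a g}
    {p2 : G.Walk g h} {p3 : G.Walk h c} {q : G.Walk b d}
    (hL : Lk E F (p1.append (p2.append p3)) q) {r1 r2 : G.Walk g h} (hr1 : r1.IsPath)
    (hr2 : r2.IsPath) (h1 : ∀ z ∈ r1.support, z ∉ q.support ∧ (z ∈ p1.support → z = g) ∧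
      (z ∈ p3.support → z = h))
    (h2 : ∀ z ∈ r2.support, z ∉ q.support ∧ (z ∈ p1.support → z = g) ∧
      (z ∈ p3.support → z = h)) (hgh : g ≠ h) : ww w r1 = ww w r2 := by
  have key : ∀ r : G.Walk g h, r.IsPath → (∀ z ∈ r.support, z ∉ q.support ∧
      (z ∈ p1.support → z = g) ∧ (z ∈ p3.support → z = h)) →
      ww w p1 + (ww w r + ww w p3) + ww w q = s := by
    intro r hr hz
    have hp1 := path_left hL.pp
    have hp23 := path_right hL.pp
    have hp3 := path_right hp23
    have e1 : (r.append p3).IsPath := path_append hr hp3 fun z h1 h2 => (hz z h1).2.2 h2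
    have e2 : (p1.append (r.append p3)).IsPath := by
      apply path_append hp1 e1
      intro z h1 h2
      rcases mem_append.1 h2 with h3 | h3
      · exact (hz z h3).2.1 h1
      · have e3 := eq_of_append hL.pp h1 (mem_append.2 (Or.inr h3))
        subst e3
        have e4 := eq_of_append hp23 (Walk.start_mem_support _) h3
        exact absurd e4 hgh
    have hL' : Lk E F (p1.append (r.append p3)) q := by
      refine ⟨e2, hL.qp, ?_, hL.hE, hL.hF⟩
      intro z hz'
      rcases mem_append.1 hz' with h3 | h3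
      · exact hL.dis z (mem_append.2 (Or.inl h3))
      · rcases mem_append.1 h3 with h4 | h4
        · exact (hz z h4).1
        · exact hL.dis z (mem_append.2 (Or.inr (mem_append.2 (Or.inr h4))))
    have := hU _ _ _ _ _ _ hL'
    rwa [ww_append, ww_append] at this
  have e1 := key r1 hr1 h1
  have e2 := key r2 hr2 h2
  linear_combination e1 - e2

/-- `c` meets the first path in two vertices and misses the second one -/
lemma Lk.meet_both (hw : ∀ u v, w u v = w v u) {s : ZMod 2} (hU : Uni G w E F s)
    {a b c d u x y : V} {p : G.Walk a c} {q : G.Walk b d} (hL : Lk E F p q) {k : G.Walk u u}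
    (hk : k.IsCycle) (hq : ∀ z ∈ k.support, z ∉ q.support) (hx : x ∈ p.support)
    (hxk : x ∈ k.support) (hy : y ∈ p.support) (hyk : y ∈ k.support) (hxy : x ≠ y) :
    ww w k = 0 := by
  obtain ⟨g, p1, p', hg, hp, h1⟩ := first_hit p (fun z => z ∈ k.support) ⟨x, hx, hxk⟩
  obtain ⟨h, p2, p3, hh, hp', h3⟩ := last_hit p' (fun z => z ∈ k.support)
    ⟨g, Walk.start_mem_support _, hg⟩
  subst hp'
  subst hp
  have hgh : g ≠ h := by
    rintro rfl
    have e : p2 = Walk.nil := by
      have := path_left (path_right hL.pp)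
      exact Walk.isPath_iff_eq_nil.1 this
    have hall : ∀ z, z ∈ (p1.append (p2.append p3)).support → z ∈ k.support → z = g := by
      intro z hz hzk
      rcases mem_append.1 hz with h4 | h4
      · exact h1 z h4 hzk
      · rw [e, Walk.nil_append] at h4
        exact h3 z h4 hzk
    exact hxy ((hall x hx hxk).trans (hall y hy hyk).symm)
  obtain ⟨A1, A2, hA1, hA2, s1, s2, hsum⟩ := arcs hw hk hg hh hgh
  have e := hL.swap hU hA1 hA2
    (fun z hz => ⟨hq z (s1 z hz), fun h4 => h1 z h4 (s1 z hz), fun h4 => h3 z h4 (s1 z hz)⟩)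
    (fun z hz => ⟨hq z (s2 z hz), fun h4 => h1 z h4 (s2 z hz), fun h4 => h3 z h4 (s2 z hz)⟩) hgh
  rw [← hsum, e]
  exact two_eq _

/-- a leg: a path from the set `S` to the set `C` meeting both sets only at its ends -/
structure Leg (S C : V → Prop) {g x : V} (α : G.Walk g x) : Prop where
  path : α.IsPath
  hg : S g
  hx : C x
  meetS : ∀ z ∈ α.support, S z → z = g
  meetC : ∀ z ∈ α.support, C z → z = x

/-- two disjoint legs ending on the same path -/
lemma Lk.two_legs (hw : ∀ u v, w u v = w v u) {s : ZMod 2} (hU : Uni G w E F s)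
    {a b c d u g x h y : V} {p : G.Walk a c} {q : G.Walk b d} (hL : Lk E F p q) {k : G.Walk u u}
    (hk : k.IsCycle) (hkd : ∀ z ∈ k.support, z ∉ p.support ∧ z ∉ q.support)
    {α : G.Walk g x} {β : G.Walk h y}
    (hα : Leg (fun z => z ∈ p.support ∨ z ∈ q.support) (fun z => z ∈ k.support) α)
    (hβ : Leg (fun z => z ∈ p.support ∨ z ∈ q.support) (fun z => z ∈ k.support) β)
    (hαβ : ∀ z ∈ α.support, z ∉ β.support) (hg : g ∈ p.support) (hh : h ∈ p.support) :
    ww w k = 0 := by
  have hgh : g ≠ h := by
    rintro rfl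
    exact hαβ g (Walk.start_mem_support _) (Walk.start_mem_support _)
  have hxy : x ≠ y := by
    rintro rfl
    exact hαβ x (Walk.end_mem_support _) (Walk.end_mem_support _)
  -- we may assume that `g` comes first
  have key : ∀ (g h x y : V) (α : G.Walk g x) (β : G.Walk h y),
      Leg (fun z => z ∈ p.support ∨ z ∈ q.support) (fun z => z ∈ k.support) α →
      Leg (fun z => z ∈ p.support ∨ z ∈ q.support) (fun z => z ∈ k.support) β →
      (∀ z ∈ α.support, z ∉ β.support) → g ≠ h → x ≠ y →
      (∃ (p1 : G.Walk a g) (p2 : G.Walk g h) (p3 : G.Walk h c), p = p1.append (p2.append p3)) →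
      ww w k = 0 := by
    rintro g h x y α β hα hβ hαβ hgh hxy ⟨p1, p2, p3, rfl⟩
    obtain ⟨A1, A2, hA1, hA2, s1, s2, hsum⟩ := arcs hw hk hα.hx hβ.hx hxy
    have hpath : ∀ A : G.Walk x y, A.IsPath → (∀ z ∈ A.support, z ∈ k.support) →
        (α.append (A.append β.reverse)).IsPath := by
      intro A hA hs
      have e1 : (A.append β.reverse).IsPath := by
        apply path_append hA hβ.path.reverse
        intro z hz hz'
        rw [Walk.support_reverse, List.mem_reverse] at hz'
        exact hβ.meetC z hz' (hs z hz)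
      apply path_append hα.path e1
      intro z hz hz'
      rcases mem_append.1 hz' with h4 | h4
      · exact hα.meetC z hz (hs z h4)
      · rw [Walk.support_reverse, List.mem_reverse] at h4
        exact absurd h4 (hαβ z hz)
    have hcond : ∀ A : G.Walk x y, (∀ z ∈ A.support, z ∈ k.support) →
        ∀ z ∈ (α.append (A.append β.reverse)).support, z ∉ q.support ∧
          (z ∈ p1.support → z = g) ∧ (z ∈ p3.support → z = h) := by
      intro A hs z hz
      have hgq : g ∉ q.support :=
        hL.dis g (mem_append.2 (Or.inl (Walk.end_mem_support _)))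
      have hhq : h ∉ q.support :=
        hL.dis h (mem_append.2 (Or.inr (mem_append.2 (Or.inr (Walk.start_mem_support _)))))
      have hp1 : ∀ z, z ∈ p1.support → z ∈ (p1.append (p2.append p3)).support := fun z hz =>
        mem_append.2 (Or.inl hz)
      have hp3 : ∀ z, z ∈ p3.support → z ∈ (p1.append (p2.append p3)).support := fun z hz =>
        mem_append.2 (Or.inr (mem_append.2 (Or.inr hz)))
      have hg3 : g ∉ p3.support := by
        intro h4
        have e4 := eq_of_append (path_right hL.pp) (Walk.start_mem_support _) h4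
        exact hgh e4
      have hh1 : h ∉ p1.support := by
        intro h4
        have e4 := eq_of_append hL.pp h4
          (mem_append.2 (Or.inr (Walk.start_mem_support _)))
        exact hgh e4.symm
      rcases mem_append.1 hz with h4 | h4
      · refine ⟨fun h5 => ?_, fun h5 => hα.meetS z h4 (Or.inl (hp1 z h5)), fun h5 => ?_⟩
        · have := hα.meetS z h4 (Or.inr h5)
          rw [this] at h5
          exact hgq h5
        · have := hα.meetS z h4 (Or.inl (hp3 z h5))
          rw [this] at h5
          exact absurd h5 hg3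
      · rcases mem_append.1 h4 with h6 | h6
        · have h7 := hkd z (hs z h6)
          exact ⟨h7.2, fun h5 => absurd (hp1 z h5) h7.1, fun h5 => absurd (hp3 z h5) h7.1⟩
        · rw [Walk.support_reverse, List.mem_reverse] at h6
          refine ⟨fun h5 => ?_, fun h5 => ?_, fun h5 => hβ.meetS z h6 (Or.inl (hp3 z h5))⟩
          · have := hβ.meetS z h6 (Or.inr h5)
            rw [this] at h5
            exact hhq h5
          · have := hβ.meetS z h6 (Or.inl (hp1 z h5))
            rw [this] at h5
            exact absurd h5 hh1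
    have e := hL.swap hU (hpath A1 hA1 s1) (hpath A2 hA2 s2) (hcond A1 s1) (hcond A2 s2) hgh
    rw [ww_append, ww_append, ww_append, ww_append] at e
    have e2 : ww w A1 = ww w A2 := by linear_combination e
    rw [← hsum, e2]
    exact two_eq _
  -- the order of `g` and `h` on `p`
  obtain ⟨p1, p', hp⟩ := (Walk.mem_support_iff_exists_append).1 hg
  have hh' : h ∈ p1.support ∨ h ∈ p'.support := by
    rw [hp] at hh
    exact mem_append.1 hh
  rcases hh' with h1 | h1
  · obtain ⟨p2, p3, hp2⟩ := (Walk.mem_support_iff_exists_append).1 h1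
    exact key h g y x β α hβ hα (fun z hz hz' => hαβ z hz' hz) hgh.symm hxy.symm
      ⟨p2, p3, p', by rw [hp, hp2, Walk.append_assoc]⟩
  · obtain ⟨p2, p3, hp2⟩ := (Walk.mem_support_iff_exists_append).1 h1
    exact key g h x y α β hα hβ hαβ hgh hxy ⟨p1, p2, p3, by rw [hp, hp2]⟩

/-- three disjoint legs -/
lemma Lk.three_legs (hw : ∀ u v, w u v = w v u) {s : ZMod 2} (hU : Uni G w E F s)
    {a b c d u : V} {p : G.Walk a c} {q : G.Walk b d} (hL : Lk E F p q) {k : G.Walk u u}
    (hk : k.IsCycle) (hkd : ∀ z ∈ k.support, z ∉ p.support ∧ z ∉ q.support)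
    {g1 x1 g2 x2 g3 x3 : V} {α1 : G.Walk g1 x1} {α2 : G.Walk g2 x2} {α3 : G.Walk g3 x3}
    (h1 : Leg (fun z => z ∈ p.support ∨ z ∈ q.support) (fun z => z ∈ k.support) α1)
    (h2 : Leg (fun z => z ∈ p.support ∨ z ∈ q.support) (fun z => z ∈ k.support) α2)
    (h3 : Leg (fun z => z ∈ p.support ∨ z ∈ q.support) (fun z => z ∈ k.support) α3)
    (h12 : ∀ z ∈ α1.support, z ∉ α2.support) (h13 : ∀ z ∈ α1.support, z ∉ α3.support)
    (h23 : ∀ z ∈ α2.support, z ∉ α3.support) : ww w k = 0 := by
  have hs : ∀ {g x : V} {α : G.Walk g x},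
      Leg (fun z => z ∈ p.support ∨ z ∈ q.support) (fun z => z ∈ k.support) α →
      Leg (fun z => z ∈ q.support ∨ z ∈ p.support) (fun z => z ∈ k.support) α := by
    intro g x α h
    exact ⟨h.path, h.hg.symm, h.hx, fun z hz hS => h.meetS z hz hS.symm, h.meetC⟩
  have hkd' : ∀ z ∈ k.support, z ∉ q.support ∧ z ∉ p.support := fun z hz => (hkd z hz).symm
  rcases h1.hg with a1 | a1 <;> rcases h2.hg with a2 | a2
  · exact hL.two_legs hw hU hk hkd h1 h2 h12 a1 a2
  · rcases h3.hg with a3 | a3
    · exact hL.two_legs hw hU hk hkd h1 h3 h13 a1 a3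
    · exact hL.symm.two_legs hw hU hk hkd' (hs h2) (hs h3) h23 a2 a3
  · rcases h3.hg with a3 | a3
    · exact hL.two_legs hw hU hk hkd h2 h3 h23 a2 a3
    · exact hL.symm.two_legs hw hU hk hkd' (hs h1) (hs h3) h13 a1 a3
  · exact hL.symm.two_legs hw hU hk hkd' (hs h1) (hs h2) h12 a1 a2

lemma Lk.start_mem {a b c d z : V} {p : G.Walk a c} {q : G.Walk b d} (hL : Lk E F p q)
    (hz : z ∈ E ∨ z ∈ F) : z ∈ p.support ∨ z ∈ q.support := by
  rw [hL.hE, hL.hF] at hz
  simp only [mem_insert, mem_singleton] at hz
  rcases hz with (rfl | rfl) | (rfl | rfl)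
  · exact Or.inl (Walk.start_mem_support _)
  · exact Or.inr (Walk.start_mem_support _)
  · exact Or.inl (Walk.end_mem_support _)
  · exact Or.inr (Walk.end_mem_support _)

/-- A circle which misses a pair of paths is even if one path of another pair meets it twice. -/
theorem Lk.base (hw : ∀ u v, w u v = w v u) {s : ZMod 2} (hU : Uni G w E F s)
    {a b c d u : V} {p : G.Walk a c} {q : G.Walk b d} (hL : Lk E F p q) {k : G.Walk u u}
    (hk : k.IsCycle) (hkd : ∀ z ∈ k.support, z ∉ p.support ∧ z ∉ q.support)
    {a' b' c' d' y1 y2 : V} {p' : G.Walk a' c'} {q' : G.Walk b' d'} (hL' : Lk E F p' q')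
    (h1 : y1 ∈ p'.support) (h1k : y1 ∈ k.support) (h2 : y2 ∈ p'.support) (h2k : y2 ∈ k.support)
    (h12 : y1 ≠ y2) : ww w k = 0 := by
  by_cases hq' : ∀ z ∈ k.support, z ∉ q'.support
  · exact hL'.meet_both hw hU hk hq' h1 h1k h2 h2k h12
  · push Not at hq'
    obtain ⟨z0, hz0, hz0'⟩ := hq'
    set S : V → Prop := fun z => z ∈ p.support ∨ z ∈ q.support with hS
    set C : V → Prop := fun z => z ∈ k.support with hC
    have hSC : ∀ z, S z → C z → False := by
      intro z h3 h4
      rcases h3 with h3 | h3
      · exact (hkd z h4).1 h3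
      · exact (hkd z h4).2 h3
    have ha' : S a' := hL.start_mem (Or.inl (by rw [hL'.hE]; simp))
    have hb' : S b' := hL.start_mem (Or.inl (by rw [hL'.hE]; simp))
    have hc' : S c' := hL.start_mem (Or.inr (by rw [hL'.hF]; simp))
    -- the second path
    obtain ⟨x3, q1, q2, hx3, hq12, hq1⟩ := first_hit q' C ⟨z0, hz0', hz0⟩
    obtain ⟨g3, q3, α3, hg3, hq34, hα3⟩ := last_hit q1 S ⟨b', Walk.start_mem_support _, hb'⟩
    have L3 : Leg S C α3 := by
      refine ⟨?_, hg3, hx3, hα3, fun z hz hCz => hq1 z ?_ hCz⟩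
      · have e1 : q1.IsPath := by
          have := hL'.qp
          rw [hq12] at this
          exact path_left this
        rw [hq34] at e1
        exact path_right e1
      · rw [hq34]
        exact mem_append.2 (Or.inr hz)
    -- the first path
    obtain ⟨x1, p1, p2, hx1, hp12, hp1⟩ := first_hit p' C ⟨y1, h1, h1k⟩
    obtain ⟨x2, p3, p4, hx2, hp34, hp4⟩ := last_hit p2 C ⟨x1, Walk.start_mem_support _, hx1⟩
    have hpp := hL'.pp
    have hx12 : x1 ≠ x2 := by
      rintro rfl
      have e : p3 = Walk.nil := by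
        rw [hp12, hp34] at hpp
        exact Walk.isPath_iff_eq_nil.1 (path_left (path_right hpp))
      have hall : ∀ z, z ∈ p'.support → C z → z = x1 := by
        intro z hz hzk
        rw [hp12] at hz
        rcases mem_append.1 hz with h4 | h4
        · exact hp1 z h4 hzk
        · rw [hp34, e, Walk.nil_append] at h4
          exact hp4 z h4 hzk
      exact h12 ((hall y1 h1 h1k).trans (hall y2 h2 h2k).symm)
    obtain ⟨g1, p5, α1, hg1, hp56, hα1⟩ := last_hit p1 S ⟨a', Walk.start_mem_support _, ha'⟩
    obtain ⟨g2, β2, p6, hg2, hp67, hβ2⟩ := first_hit p4 S ⟨c', Walk.end_mem_support _, hc'⟩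
    rw [hp12] at hpp
    have L1 : Leg S C α1 := by
      refine ⟨?_, hg1, hx1, hα1, fun z hz hCz => hp1 z ?_ hCz⟩
      · have := path_left hpp
        rw [hp56] at this
        exact path_right this
      · rw [hp56]
        exact mem_append.2 (Or.inr hz)
    have hp2p := path_right hpp
    have L2 : Leg S C β2.reverse := by
      refine ⟨?_, hg2, hx2, fun z hz hSz => hβ2 z (by simpa using hz) hSz,
        fun z hz hCz => hp4 z ?_ hCz⟩
      · rw [hp34] at hp2p
        have := path_right hp2p
        rw [hp67] at this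
        exact (path_left this).reverse
      · rw [hp67]
        exact mem_append.2 (Or.inl (by simpa using hz))
    have sub1 : ∀ z ∈ α1.support, z ∈ p1.support := fun z hz => by
      rw [hp56]; exact mem_append.2 (Or.inr hz)
    have sub2 : ∀ z ∈ β2.reverse.support, z ∈ p4.support := fun z hz => by
      rw [hp67]; exact mem_append.2 (Or.inl (by simpa using hz))
    have sub3 : ∀ z ∈ α3.support, z ∈ q'.support := fun z hz => by
      rw [hq12, hq34]; exact mem_append.2 (Or.inl (mem_append.2 (Or.inr hz)))
    have sub1' : ∀ z ∈ p1.support, z ∈ p'.support := fun z hz => by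
      rw [hp12]; exact mem_append.2 (Or.inl hz)
    have sub4' : ∀ z ∈ p4.support, z ∈ p'.support := fun z hz => by
      rw [hp12, hp34]; exact mem_append.2 (Or.inr (mem_append.2 (Or.inr hz)))
    refine hL.three_legs hw hU hk hkd L1 L2 L3 ?_ ?_ ?_
    · intro z hz hz'
      have e1 := sub2 z hz'
      have e2 : z = x1 := eq_of_append hpp (sub1 z hz) (by
        rw [hp34]; exact mem_append.2 (Or.inr e1))
      rw [e2] at e1
      exact hx12 (hp4 x1 e1 hx1)
    · intro z hz hz'
      exact hL'.dis z (sub1' z (sub1 z hz)) (sub3 z hz')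
    · intro z hz hz'
      exact hL'.dis z (sub4' z (sub2 z hz)) (sub3 z hz')

end Pool.Agent.Lib.MP_ba489c_co
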